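import Pool.Agent.Helper99.EC.Exi
import Pool.Agent.Helper25.EC.AL
import Pool.Agent.Helper3.LF.Mono

/-! Exact entropy calculus: agreement of the copies of functions of an extension gives functions of the cells of the
space itself, for every index. -/

set_option autoImplicit false

namespace Pool.Agent.Helper99.EC

open Finset Filter Topology Pool.Agent.Helper69.RK
open Pool.Agent.Helper31.EC Pool.Agent.Helper31.EC.Sp QS
open Pool.Agent.Helper25.EC
open Pool.Agent.Helper38.NS

noncomputable section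

section two

variable {W T : Sp} (p0 : Pj W T) {m : ℕ} (X : T.VV m)

/-- the cell of a vector variable on an extension -/
def cv : ∀ k, (W.F k).Ω → (Fin m → ℤ) := fun k w => X.cellv 1 k (p0.π k w)

theorem cv_bdd : Bdd (cv p0 X) := (p0.bdd_iff (X.cellv 1)).mpr (X.bdd 1)

theorem io_cv : io (cv p0 X) = p0.map (X.dg 1) := by
  unfold VV.dg
  rw [p0.map_io]
  rfl

/-- the two copies have the vector variable in common -/
theorem two_com (i : Fin m) : (two1 (cv p0 X)).qs (p0.qs (mk (TR.cor X i))) =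
    (two2 (cv p0 X)).qs (p0.qs (mk (TR.cor X i))) := by
  rw [Pj.qs_mk, Pj.qs_mk, Pj.qs_mk, QS.mk_eq]
  refine ⟨fun _ _ => True, fun _ => 1, Sp.Typ_true, Sp.Sub_const _ zero_le_one,
    Eventually.of_forall fun k w hw _ => ?_⟩
  have h1 : cv p0 X k w.1 = cv p0 X k w.2 := (Pj.id W).join_supp (cv p0 X) k w hw
  have h2 := X.cellv_close 1 k _ _ h1 i
  have h3 : (two (cv p0 X)).dl 1 k = T.dl 1 k := by
    unfold Sp.dl
    rw [show ((two (cv p0 X)).F k).n = (W.F k).n from rfl, p0.hn k]
  rw [one_mul, h3]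
  exact h2

/-- the two copies are conditionally independent given the vector variable -/
theorem two_ind (x y : W.L) : I ((two1 (cv p0 X)).map x) ((two2 (cv p0 X)).map y)
    ((two1 (cv p0 X)).map (p0.map (X.dg 1))) = 0 := by
  have h1 := (Pj.id W).join_indep (cv p0 X) (cv_bdd p0 X) x y
  rw [Pj.id_map, io_cv] at h1
  exact h1

/-- equality in the ring is closeness of representatives -/
theorem close_of_eq {V : Sp} {f g : TR V} (h : mk f = mk g) {δ : ℝ} (hδ : 0 < δ) :
    Typ (fun k ω => |TR.ev f k ω - TR.ev g k ω| ≤ V.dl (1 - δ) k) := (mk_eq.mp h).levels hδ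

/-- closeness of finitely many functions -/
theorem typ_forall {V : Sp} {M : Type} [Fintype M] {E : M → ∀ k, (V.F k).Ω → Prop} (h : ∀ a, Typ (E a)) :
    Typ (fun k ω => ∀ a, E a k ω) := by
  classical
  have key : ∀ s : Finset M, Typ (fun k ω => ∀ a ∈ s, E a k ω) := by
    intro s
    induction s using Finset.induction_on with
    | empty => exact Typ_true.mono (Eventually.of_forall fun k ω _ _ a ha => absurd ha (Finset.notMem_empty a))
    | insert a s _ ih =>
      refine ((h a).and ih).mono (Eventually.of_forall fun k ω _ hh b hb => ?_)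
      rcases Finset.mem_insert.mp hb with rfl | hb
      · exact hh.1
      · exact hh.2 b hb
  exact (key Finset.univ).mono (Eventually.of_forall fun k ω _ hh a => hh a (Finset.mem_univ a))

/-- probability on an extension -/
theorem pb_pull (k : ℕ) (E : (T.F k).Ω → Prop) : (W.F k).pb (fun w => E (p0.π k w)) = (T.F k).pb E := by
  have h2 : push (p0.π k) (res (W.F k).μ fun ω => E (p0.π k ω)) = res (T.F k).μ fun ω => E ω := by
    funext ω
    rw [push_ind]
    by_cases h : E ω
    · rw [res_pos (T.F k).μ (fun ω => E ω) ω h, ← p0.law k, push_ind]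
      apply Finset.sum_congr rfl
      intro ω' _
      by_cases h2 : p0.π k ω' = ω
      · rw [res_pos (W.F k).μ (fun ω => E (p0.π k ω)) ω' (by rw [h2]; exact h)]
      · rw [e1_ind_neg h2, zero_mul, zero_mul]
    · rw [res_neg (T.F k).μ (fun ω => E ω) ω h]
      apply Finset.sum_eq_zero
      intro ω' _
      by_cases h2 : p0.π k ω' = ω
      · rw [res_neg (W.F k).μ (fun ω => E (p0.π k ω)) ω' (by rw [h2]; exact h), mul_zero]
      · rw [e1_ind_neg h2, zero_mul]
  unfold FSp.pb
  rw [← h2]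
  exact ((Pool.Agent.Helper70.RK.st_E5.1 (T.F k).Ω (W.F k).Ω Unit Unit
    (res (W.F k).μ fun ω => E (p0.π k ω)) (p0.π k) (fun _ => ()) (fun _ => ())
    ((W.F k).res_nonneg fun ω => E (p0.π k ω))).2.1).symm

/-- clamping -/
def clamp (K x : ℝ) : ℝ := max (-K) (min K x)

theorem clamp_abs {K : ℝ} (hK : 0 ≤ K) (x : ℝ) : |clamp K x| ≤ K := by
  unfold clamp
  rw [abs_le]
  exact ⟨le_max_left _ _, max_le (by linarith) (min_le_left _ _)⟩

theorem clamp_close {K x y : ℝ} (hx : |x| ≤ K) : |x - clamp K y| ≤ |x - y| := by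
  obtain ⟨h1, h2⟩ := abs_le.mp hx
  unfold clamp
  rcases le_total K y with h | h
  · rw [min_eq_left h, max_eq_right (by linarith)]
    rw [abs_of_nonpos (by linarith), abs_of_nonpos (by linarith)]
    linarith
  · rw [min_eq_right h]
    rcases le_total (-K) y with h' | h'
    · rw [max_eq_right h']
    · rw [max_eq_left h']
      rw [abs_of_nonneg (by linarith), abs_of_nonneg (by linarith)]
      linarith

/-- FUNCTIONS OF THE CELLS. If the copies of the functions `C a` (of the extension `W`) given the cell of `X` agree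
up to `2 ^ (-r n)` typically then there are functions of the cell of `X` on `T` itself which are close to them. -/
theorem exists_cell_fun {M : Type} [Fintype M] (C : M → TR W) (r : ℝ)
    (hC : Typ (S := two (cv p0 X)) (fun k w => ∀ a, |TR.ev (C a) k ((two1 (cv p0 X)).π k w) -
      TR.ev (C a) k ((two2 (cv p0 X)).π k w)| ≤ W.dl r k)) (K : ℕ → ℝ)
    (hK : ∀ᶠ k in UF, 0 ≤ K k ∧ ∀ a ω, (W.F k).μ ω ≠ 0 → |TR.ev (C a) k ω| ≤ K k) :
    ∃ c : ∀ k, (T.F k).Ω → M → ℝ, (∀ k ω ω', (T.F k).μ ω ≠ 0 → (T.F k).μ ω' ≠ 0 → (T.F k).Z ω ω' →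
      X.cellv 1 k ω = X.cellv 1 k ω' → c k ω = c k ω') ∧ (∀ᶠ k in UF, ∀ ω a, |c k ω a| ≤ K k) ∧
      Typ (S := W) (fun k w => ∀ a, |TR.ev (C a) k w - c k (p0.π k w) a| ≤ W.dl r k) := by
  classical
  obtain ⟨c, hc1, hc2⟩ := exists_rep (cv p0 X) (fun k ω ω' => ∀ a, |TR.ev (C a) k ω - TR.ev (C a) k ω'| ≤ W.dl r k)
  set L : ∀ k, (T.F k).Ω → M → ℝ := fun k ω a =>
    if h : ∃ ω', (W.F k).μ ω' ≠ 0 ∧ p0.π k ω' = ω then clamp (K k) (TR.ev (C a) k (c k h.choose)) else 0 with hL
  have hLw : ∀ k w, (W.F k).μ w ≠ 0 → ∀ a, L k (p0.π k w) a = clamp (K k) (TR.ev (C a) k (c k w)) := by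
    intro k w hw a
    have hex : ∃ ω', (W.F k).μ ω' ≠ 0 ∧ p0.π k ω' = p0.π k w := ⟨w, hw, rfl⟩
    show (if h : ∃ ω', (W.F k).μ ω' ≠ 0 ∧ p0.π k ω' = p0.π k w then
      clamp (K k) (TR.ev (C a) k (c k h.choose)) else 0) = _
    rw [dif_pos hex]
    congr 2
    apply hc1
    · show X.cellv 1 k (p0.π k hex.choose) = X.cellv 1 k (p0.π k w)
      rw [hex.choose_spec.2]
    · rw [p0.hZ k _ _ hex.choose_spec.1 hw, hex.choose_spec.2]
  refine ⟨L, ?_, ?_, ?_⟩
  · intro k ω ω' hω hω' hZ hcell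
    obtain ⟨w, hw, rfl⟩ := p0.exists_lift k ω hω
    obtain ⟨w', hw', rfl⟩ := p0.exists_lift k ω' hω'
    funext a
    rw [hLw k w hw, hLw k w' hw']
    congr 2
    apply hc1
    · exact hcell
    · rw [p0.hZ k _ _ hw hw']
      exact hZ
  · filter_upwards [hK] with k hk ω a
    show |(if h : ∃ ω', (W.F k).μ ω' ≠ 0 ∧ p0.π k ω' = ω then
      clamp (K k) (TR.ev (C a) k (c k h.choose)) else 0)| ≤ K k
    split_ifs with h
    · exact clamp_abs hk.1 _
    · rw [abs_zero]; exact hk.1
  · have h1 : Typ (S := W) (fun k w => ∀ a, |TR.ev (C a) k w - TR.ev (C a) k (c k w)| ≤ W.dl r k) := by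
      unfold Typ at hC ⊢
      exact tendsto_of_tendsto_of_tendsto_of_le_of_le tendsto_const_nhds hC (fun k => mass_res_nonneg k _)
        (fun k => hc2 k)
    apply h1.mono
    filter_upwards [hK] with k hk w hw hh a
    rw [hLw k w hw a]
    exact (clamp_close (hk.2 a w hw)).trans (hh a)

end two

end

end Pool.Agent.Helper99.EC
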