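import Pool.Agent.Helper99.EC.FinB
import Pool.Agent.Helper52.KP.Agr

/-! Exact entropy calculus: FROM THE FINITE LEAF STATEMENT TO AN EXACT LABEL (76 (D2)). (1) transfer principle: what
holds for all diagonal limits holds for all late stages; (2) functions of the point and functions of the line which are
close with positive probability give, after rounding, an exact function of a maximal label. -/

set_option autoImplicit false

namespace Pool.Agent.Helper99.EC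

open Finset Filter Topology Pool.Agent.Helper69.RK
open Pool.Agent.Helper31.EC Pool.Agent.Helper31.EC.Sp QS
open Pool.Agent.Helper40.EL

noncomputable section

open Pool.Agent.Helper3.LF (Mon)

/-! ### the transfer principle -/

/-- TRANSFER PRINCIPLE: a property of the stages `j` which holds along every diagonal (along which countably many
functionals have their limits and countably many properties hold) holds for all late stages. -/
theorem transfer (f : ℕ → ℕ → ℕ → ℝ) (E : ℕ → ℕ → ℕ → Prop) (hf : ∀ i j, UB (f i j))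
    (hE : ∀ i j, ∀ᶠ k in UF, E i j k) (P : ℕ → ℕ → Prop)
    (H : ∀ J : ℕ → ℕ, Tendsto J UF atTop → (∀ i, Tendsto (fun k => f i (J k) k - ul (f i (J k))) UF (𝓝 0)) →
      (∀ i, ∀ᶠ k in UF, E i (J k) k) → ∃ᶠ k in UF, P (J k) k) :
    ∀ᶠ j in atTop, ∀ᶠ k in UF, P j k := by
  by_contra hc
  have h1 : ∃ᶠ j in atTop, ¬ ∀ᶠ k in UF, P j k := Filter.not_eventually.mp hc
  rw [Filter.frequently_atTop] at h1
  choose σ hσ1 hσ2 using h1
  have h2 : ∀ j, ∀ᶠ k in UF, ¬ P (σ j) k := fun j => Ultrafilter.eventually_not.mpr (hσ2 j)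
  obtain ⟨J, hJ, hJ1, hJ2⟩ := diag_in_place (fun i j => f i (σ j))
    (fun i j k => match i with | 0 => ¬ P (σ j) k | i + 1 => E i (σ j) k)
    (fun i j => hf i (σ j)) (by
      intro i j
      cases i with
      | zero => exact h2 j
      | succ i => exact hE i (σ j))
  have hσ : Tendsto σ atTop atTop := tendsto_atTop_mono hσ1 tendsto_id
  have h3 := H (fun k => σ (J k)) (hσ.comp hJ) hJ1 (fun i => hJ2 (i + 1))
  exact h3 (hJ2 0)

/-! ### rounding with bounded ambiguity -/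

/-- rounding of a vector -/
def rdv {ι : Type} (ρ : ℝ) (c : ι → ℝ) : ι → ℤ := fun a => ⌊c a / ρ⌋

theorem rdv_close {ι : Type} {ρ : ℝ} (hρ : 0 < ρ) (c : ι → ℝ) (a : ι) : |(rdv ρ c a : ℝ) * ρ - c a| ≤ ρ := by
  have h1 := Int.floor_le (c a / ρ)
  have h2 := Int.lt_floor_add_one (c a / ρ)
  rw [le_div_iff₀ hρ] at h1
  rw [div_lt_iff₀ hρ] at h2
  show |(⌊c a / ρ⌋ : ℝ) * ρ - c a| ≤ ρ
  rw [abs_le]
  constructor <;> linarith

theorem floor_few {x y : ℝ} (h : |x - y| ≤ 1) : ∃ i : Fin 3, ⌊y⌋ = ⌊x⌋ + ((i : ℕ) : ℤ) - 1 := by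
  have h1 := abs_le.mp h
  have a1 := Int.floor_le x
  have a2 := Int.lt_floor_add_one x
  have b1 := Int.floor_le y
  have b2 := Int.lt_floor_add_one y
  have c1 : ⌊y⌋ < ⌊x⌋ + 2 := by
    have : (⌊y⌋ : ℝ) < ⌊x⌋ + 2 := by linarith [h1.1]
    exact_mod_cast this
  have c2 : ⌊x⌋ < ⌊y⌋ + 2 := by
    have : (⌊x⌋ : ℝ) < ⌊y⌋ + 2 := by linarith [h1.2]
    exact_mod_cast this
  have c3 : ⌊y⌋ = ⌊x⌋ - 1 ∨ ⌊y⌋ = ⌊x⌋ ∨ ⌊y⌋ = ⌊x⌋ + 1 := by omega
  rcases c3 with h | h | h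
  · exact ⟨0, by rw [h]; simp⟩
  · exact ⟨1, by rw [h]; simp⟩
  · exact ⟨2, by rw [h]; simp; ring⟩

/-- the rounding of a close vector takes few values -/
theorem rdv_few {ι : Type} [Fintype ι] (ρ : ℝ) (hρ : 0 < ρ) : ∃ (N : ℕ) (e : (ι → ℤ) → Fin N → (ι → ℤ)),
    N = Nat.card (ι → Fin 3) ∧
    ∀ c c' : ι → ℝ, (∀ a, |c a - c' a| ≤ ρ) → ∃ i, rdv ρ c' = e (rdv ρ c) i := by
  classical
  refine ⟨Nat.card (ι → Fin 3), fun x i a => x a + (((Finite.equivFin (ι → Fin 3)).symm i a : ℕ) : ℤ) - 1, rfl, ?_⟩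
  intro c c' h
  have h1 : ∀ a, ∃ i : Fin 3, rdv ρ c' a = rdv ρ c a + ((i : ℕ) : ℤ) - 1 := by
    intro a
    apply floor_few
    rw [← sub_div, abs_div, abs_of_pos hρ, div_le_one hρ]
    exact h a
  choose i hi using h1
  refine ⟨Finite.equivFin (ι → Fin 3) i, ?_⟩
  funext a
  show rdv ρ c' a = rdv ρ c a + (((Finite.equivFin (ι → Fin 3)).symm (Finite.equivFin (ι → Fin 3) i) a : ℕ) : ℤ) - 1
  rw [Equiv.symm_apply_apply]
  exact hi a

/-- EXACT LABEL: functions of `(A, l)` and of `(B, l)` which are close with positive probability: the rounding is an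
exact function of the maximal label, on the event -/
theorem exact_label {S : Sp} {l : Lab S} {A B : Part S} (hl : l.IsMax A B) (hA : A.Bd)
    (hA₂ : ∀ E : ∀ k, (l.sp.F k).Ω → Prop, (A.im l.pj E).Bd) {ι : Type} [Fintype ι]
    (cA cB : ∀ k, (l k).T.Ω → ι → ℝ) (ρ : ℕ → ℝ) (hρ : ∀ k, 0 < ρ k)
    (hcA : Nul S (fun k => h (fc (Setoid.ker (cA k)) : FL (l k).T) ((l k).v ⊔ (l k).p.map (A k))))
    (hcB : Nul S (fun k => h (fc (Setoid.ker (cB k)) : FL (l k).T) ((l k).v ⊔ (l k).p.map (B k))))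
    (E : ∀ k, (l.sp.F k).Ω → Prop) (hcl : ∀ k ω, E k ω → ∀ a, |cA k ω a - cB k ω a| ≤ ρ k)
    (hE : 0 < ul (l.sp.pr E)) :
    Nul S (fun k => h (fc (Setoid.ker fun ω => rdv (ρ k) (cB k ω)) : FL ((l k).T.rest (E k)))
        ((l k).T.rmap (E k) (l k).v)) ∧
      ((l.im E).addW fun k => Setoid.ker fun ω => rdv (ρ k) (cB k ω)).IsMax (A.im l.pj E) (B.im l.pj E) := by
  classical
  have hmono : ∀ (c : ∀ k, (l k).T.Ω → ι → ℝ) (k : ℕ),
      (fc (Setoid.ker fun ω => rdv (ρ k) (c k ω)) : FL (l k).T) ≤ fc (Setoid.ker (c k)) := by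
    intro c k
    apply fc_mono
    intro ω ω' h
    have h' : c k ω = c k ω' := h
    show rdv (ρ k) (c k ω) = rdv (ρ k) (c k ω')
    rw [h']
  have hB1 : Nul S (fun k => h (fc (Setoid.ker fun ω => rdv (ρ k) (cB k ω)) : FL (l k).T)
      ((l k).v ⊔ (l k).p.map (B k))) :=
    hcB.of_le (Eventually.of_forall fun k => h_nonneg _ _)
      (Eventually.of_forall fun k => h_mono (hmono cB k))
  have hA1 : Nul S (fun k => h (fc (Setoid.ker fun ω => rdv (ρ k) (cA k ω)) : FL (l k).T)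
      ((l k).v ⊔ (l k).p.map (A k))) :=
    hcA.of_le (Eventually.of_forall fun k => h_nonneg _ _)
      (Eventually.of_forall fun k => h_mono (hmono cA k))
  have hB2 := Lab.nul_rmap (l := l) E hE _ _ hB1
  have hA2 := Lab.nul_rmap (l := l) E hE _ _ hA1
  have hev : ∀ᶠ k in UF, (l k).T.pb (E k) ≠ 0 := by
    have h1 : Tendsto (l.sp.pr E) UF (𝓝 (ul (l.sp.pr E))) := ul_tendsto (Sp.UB_pr E)
    filter_upwards [h1.eventually (lt_mem_nhds hE)] with k hk
    exact hk.ne'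
  apply Lab.IsMax.fun_small_im hl hA E hE (hA₂ _)
  · set N := Nat.card (ι → Fin 3) with hN
    refine ((Nul.const S (Real.logb 2 N)).add hA2).of_le (Eventually.of_forall fun k => h_nonneg _ _) ?_
    filter_upwards [hev] with k hk
    obtain ⟨N', e, hN', he⟩ := rdv_few (ι := ι) (ρ k) (hρ k)
    have h3 := h_few (F := (l k).T) (E k) (fun ω => rdv (ρ k) (cB k ω)) (fun ω => rdv (ρ k) (cA k ω)) N' e
      (fun ω _ hω => he _ _ (hcl k ω hω)) hk
    rw [hN'] at h3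
    have h4 := h_triangle (fc (Setoid.ker fun ω => rdv (ρ k) (cB k ω)) : FL ((l k).T.rest (E k)))
      (fc (Setoid.ker fun ω => rdv (ρ k) (cA k ω))) ((l k).T.rmap (E k) ((l k).v ⊔ (l k).p.map (A k)))
    have h5 : h (fc (Setoid.ker fun ω => rdv (ρ k) (cB k ω)) : FL ((l k).T.rest (E k)))
        (fc (Setoid.ker fun ω => rdv (ρ k) (cA k ω)) ⊔ (l k).T.rmap (E k) ((l k).v ⊔ (l k).p.map (A k))) ≤
        h (fc (Setoid.ker fun ω => rdv (ρ k) (cB k ω)) : FL ((l k).T.rest (E k)))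
          (fc (Setoid.ker fun ω => rdv (ρ k) (cA k ω))) := h_anti le_sup_left
    exact h4.trans (add_le_add (h5.trans h3) le_rfl)
  · exact hB2

/-- FROM THE FINITE LEAF STATEMENT (at one stage) TO AN EXACT LABEL: there are an event `E` of probability at least
`1 - ε` of the space of the maximal label and a coefficient vector `c`, which is a function of the label on `E` (and
the refined label is maximal on the event), such that `z` is on `E` the value at `q` of the polynomial `c` up to a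
multiple of `ρ`. -/
theorem exact_leaf {S : Sp} {l : Lab S} {A B : Part S} (hl : l.IsMax A B) (hA : A.Bd)
    (hA₂ : ∀ E : ∀ k, (l.sp.F k).Ω → Prop, (A.im l.pj E).Bd) {N K : ℕ} (Zb : ∀ k, Setoid (l k).T.Ω) (e : ℝ)
    (he : 0 < e) (q : ∀ k, Fin N → (l k).T.Ω → ℝ) (z : ∀ k, (l k).T.Ω → ℝ) (PB PX : ∀ k, Setoid (l k).T.Ω)
    (L ρ : ℕ → ℝ) (hρ : ∀ k, 0 < ρ k) {ε : ℝ} (hε : ε < 1)
    (hZ : ∀ᶠ k in UF, ∀ ω ω', (l k).T.μ ω ≠ 0 → (l k).T.μ ω' ≠ 0 → (l k).V ω ω' → (l k).T.Z ω ω' → (Zb k) ω ω')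
    (hPX : Nul S (fun k => h (fc (PX k) : FL (l k).T) ((l k).v ⊔ (l k).p.map (A k))))
    (hPB : Nul S (fun k => h (fc (PB k) : FL (l k).T) ((l k).v ⊔ (l k).p.map (B k))))
    (hf : ∀ᶠ k in UF, LfF (((l k).T).chg (Zb k) e he) K (q k) (z k) (PB k) (PX k) (L k) (ρ k) ε) :
    ∃ (E : ∀ k, (l.sp.F k).Ω → Prop) (c : ∀ k, (l k).T.Ω → Mon N K → ℝ), 1 - ε ≤ ul (l.sp.pr E) ∧
      (∀ᶠ k in UF, ∀ ω a, |c k ω a| ≤ L k + ρ k) ∧
      (∀ k ω, E k ω → |z k ω - ∑ a, c k ω a * ∏ i, q k i ω ^ (a.1 i : ℕ)| ≤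
        (1 + ∑ a : Mon N K, |∏ i, q k i ω ^ (a.1 i : ℕ)|) * ρ k) ∧
      Nul S (fun k => h (fc (Setoid.ker (c k)) : FL ((l k).T.rest (E k))) ((l k).T.rmap (E k) (l k).v)) ∧
      ((l.im E).addW fun k => Setoid.ker (c k)).IsMax (A.im l.pj E) (B.im l.pj E) := by
  classical
  have hex : ∀ k, ∃ cB cX : (l k).T.Ω → Mon N K → ℝ,
      LfF (((l k).T).chg (Zb k) e he) K (q k) (z k) (PB k) (PX k) (L k) (ρ k) ε →
      (∀ ω ω', (l k).T.μ ω ≠ 0 → (l k).T.μ ω' ≠ 0 → (Zb k ⊓ (l k).T.Z) ω ω' → PB k ω ω' → cB ω = cB ω') ∧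
      (∀ ω ω', (l k).T.μ ω ≠ 0 → (l k).T.μ ω' ≠ 0 → (Zb k ⊓ (l k).T.Z) ω ω' → PX k ω ω' → cX ω = cX ω') ∧
      (∀ ω a, |cB ω a| ≤ L k) ∧
      (l k).T.pb (fun ω => ¬ ((∀ a, |cB ω a - cX ω a| ≤ ρ k) ∧
        |z k ω - ∑ a, cB ω a * ∏ i, q k i ω ^ (a.1 i : ℕ)| ≤ ρ k)) ≤ ε := by
    intro k
    by_cases h : LfF (((l k).T).chg (Zb k) e he) K (q k) (z k) (PB k) (PX k) (L k) (ρ k) ε
    · obtain ⟨cB, cX, h1, h2, h3, h4, h5⟩ := h
      exact ⟨cB, cX, fun _ => ⟨h1, h2, h3, h5⟩⟩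
    · exact ⟨fun _ _ => 0, fun _ _ => 0, fun h' => absurd h' h⟩
  choose cB cX hc using hex
  set E : ∀ k, (l.sp.F k).Ω → Prop := fun k ω => (∀ a, |cB k ω a - cX k ω a| ≤ ρ k) ∧
    |z k ω - ∑ a, cB k ω a * ∏ i, q k i ω ^ (a.1 i : ℕ)| ≤ ρ k with hEdef
  have hpE : 1 - ε ≤ ul (l.sp.pr E) := by
    apply Lab.pr_ge_of
    filter_upwards [hf] with k hk
    have h1 := (hc k hk).2.2.2
    have h2 := (l k).T.pb_add_compl (E k)
    have h3 : (l k).T.pb (fun ω => ¬ E k ω) ≤ ε := h1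
    linarith
  have hpos : 0 < ul (l.sp.pr E) := by linarith
  set c : ∀ k, (l k).T.Ω → Mon N K → ℝ := fun k ω a => (rdv (ρ k) (cB k ω) a : ℝ) * ρ k with hcdef
  have hker : ∀ k, Setoid.ker (c k) = Setoid.ker (fun ω => rdv (ρ k) (cB k ω)) := by
    intro k
    ext ω ω'
    constructor
    · intro h
      have h' : c k ω = c k ω' := h
      show rdv (ρ k) (cB k ω) = rdv (ρ k) (cB k ω')
      funext a
      have h2 := congrFun h' a
      have h3 : (rdv (ρ k) (cB k ω) a : ℝ) * ρ k = (rdv (ρ k) (cB k ω') a : ℝ) * ρ k := h2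
      have h4 := mul_right_cancel₀ (hρ k).ne' h3
      exact_mod_cast h4
    · intro h
      have h' : rdv (ρ k) (cB k ω) = rdv (ρ k) (cB k ω') := h
      show c k ω = c k ω'
      funext a
      show (rdv (ρ k) (cB k ω) a : ℝ) * ρ k = (rdv (ρ k) (cB k ω') a : ℝ) * ρ k
      rw [h']
  have hm : ∀ (C : ∀ k, (l k).T.Ω → Mon N K → ℝ) (P : ∀ k, Setoid (l k).T.Ω) (Y : ∀ k, FL (l k).T),
      (∀ᶠ k in UF, ∀ ω ω', (l k).T.μ ω ≠ 0 → (l k).T.μ ω' ≠ 0 → (Zb k ⊓ (l k).T.Z) ω ω' → P k ω ω' →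
        C k ω = C k ω') →
      Nul S (fun k => h (fc (P k) : FL (l k).T) ((l k).v ⊔ Y k)) →
      Nul S (fun k => h (fc (Setoid.ker (C k)) : FL (l k).T) ((l k).v ⊔ Y k)) := by
    intro C P Y h1 h2
    refine h2.of_le (Eventually.of_forall fun k => h_nonneg _ _) ?_
    filter_upwards [h1, hZ] with k h3 h4
    have h5 : (fc (Setoid.ker (C k)) : FL (l k).T) ≤ fc (P k) ⊔ (l k).v := by
      show (fc (Setoid.ker (C k)) : FL (l k).T) ≤ fc (P k ⊓ (l k).V)
      apply fc_le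
      intro ω ω' a b hz g
      exact h3 ω ω' a b ⟨h4 ω ω' a b g.2 hz, hz⟩ g.1
    have h6 : h (fc (Setoid.ker (C k)) : FL (l k).T) ((l k).v ⊔ Y k) ≤
        h (fc (P k) ⊔ (l k).v : FL (l k).T) ((l k).v ⊔ Y k) := h_mono h5
    refine h6.trans (le_of_eq ?_)
    rw [sup_comm (fc (P k)) (l k).v, h_chain, h_zero (show (l k).v ≤ (l k).v ⊔ Y k from le_sup_left), zero_add]
    congr 1
    rw [← sup_assoc, sup_idem]
  have hmB := hm cB PB (fun k => (l k).p.map (B k)) (by filter_upwards [hf] with k hk using (hc k hk).1) hPB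
  have hmX := hm cX PX (fun k => (l k).p.map (A k)) (by filter_upwards [hf] with k hk using (hc k hk).2.1) hPX
  obtain ⟨r1, r2⟩ := exact_label hl hA hA₂ cX cB ρ hρ hmX hmB E (fun k ω h a => by
    rw [abs_sub_comm]; exact h.1 a) hpos
  refine ⟨E, c, hpE, ?_, ?_, ?_, ?_⟩
  · filter_upwards [hf] with k hk ω a
    have h1 := rdv_close (hρ k) (cB k ω) a
    have h2 := (hc k hk).2.2.1 ω a
    have h3 : c k ω a = ((rdv (ρ k) (cB k ω) a : ℝ) * ρ k - cB k ω a) + cB k ω a := by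
      show (rdv (ρ k) (cB k ω) a : ℝ) * ρ k = _
      ring
    rw [h3]
    exact (abs_add_le _ _).trans (by linarith)
  · intro k ω hω
    have h1 := hω.2
    have h2 : |∑ a, cB k ω a * ∏ i, q k i ω ^ (a.1 i : ℕ) - ∑ a, c k ω a * ∏ i, q k i ω ^ (a.1 i : ℕ)| ≤
        (∑ a : Mon N K, |∏ i, q k i ω ^ (a.1 i : ℕ)|) * ρ k := by
      rw [← Finset.sum_sub_distrib, Finset.sum_mul]
      refine (Finset.abs_sum_le_sum_abs _ _).trans ?_
      apply Finset.sum_le_sum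
      intro a _
      rw [← sub_mul, abs_mul, mul_comm]
      apply mul_le_mul_of_nonneg_left _ (abs_nonneg _)
      have h3 := rdv_close (hρ k) (cB k ω) a
      rw [abs_sub_comm]
      exact h3
    have h3 : z k ω - ∑ a, c k ω a * ∏ i, q k i ω ^ (a.1 i : ℕ) =
      (z k ω - ∑ a, cB k ω a * ∏ i, q k i ω ^ (a.1 i : ℕ)) +
        (∑ a, cB k ω a * ∏ i, q k i ω ^ (a.1 i : ℕ) - ∑ a, c k ω a * ∏ i, q k i ω ^ (a.1 i : ℕ)) := by ring
    rw [h3]
    refine (abs_add_le _ _).trans ?_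
    rw [add_mul, one_mul]
    exact add_le_add h1 h2
  · have e1 : (fun k => h (fc (Setoid.ker (c k)) : FL ((l k).T.rest (E k))) ((l k).T.rmap (E k) (l k).v)) =
        fun k => h (fc (Setoid.ker fun ω => rdv (ρ k) (cB k ω)) : FL ((l k).T.rest (E k)))
          ((l k).T.rmap (E k) (l k).v) := by
      funext k
      have := hker k
      exact congrArg (fun W : Setoid (l k).T.Ω => h (fc W : FL ((l k).T.rest (E k))) ((l k).T.rmap (E k) (l k).v)) this
    rw [e1]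
    exact r1
  · have e2 : (fun k => Setoid.ker (c k)) = fun k => Setoid.ker (fun ω => rdv (ρ k) (cB k ω)) := funext hker
    have e3 := congrArg (fun W : ∀ k, Setoid ((l.im E) k).T.Ω =>
      ((l.im E).addW W).IsMax (A.im l.pj E) (B.im l.pj E)) e2
    exact e3.mpr r2

end

end Pool.Agent.Helper99.EC
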