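import Pool.Agent.Helper38.NS.Rect
import Pool.Agent.Helper19.SP.MvU

/-! Exact entropy calculus: stars (finitely many conditionally independent copies of a space given finitely many
functions) as a property of a family of projections; independence of free labels of a star. -/

set_option autoImplicit false

namespace Pool.Agent.Helper99.EC

open Pool.Agent.Helper31.EC QS
open Pool.Agent.Helper38.NS

noncomputable section

section lattice

variable {L : Type*} [PM L]

/-- two groups of conditionally independent informations -/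
theorem I_of_sum {ι : Type*} [Fintype ι] [DecidableEq ι] (f : ι → L) (v : L)
    (hi : h (Finset.univ.sup f) v = ∑ i, h (f i) v) {s t : Finset ι} (hst : Disjoint s t) :
    I (s.sup f) (t.sup f) v = 0 := by
  apply le_antisymm _ (I_nonneg _ _ _)
  rw [I_eq']
  set r := (s ∪ t)ᶜ with hr
  have h1 : Finset.univ.sup f = s.sup f ⊔ t.sup f ⊔ r.sup f := by
    rw [← Finset.sup_union, ← Finset.sup_union, hr, Finset.union_compl]
  have h2 : h (Finset.univ.sup f) v ≤ h (s.sup f) v + h (t.sup f) (s.sup f ⊔ v) + h (r.sup f) v := by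
    rw [h1, h_chain, h_chain]
    have := h_anti (A := r.sup f) (le_sup_right : v ≤ s.sup f ⊔ t.sup f ⊔ v)
    linarith
  have h3 := h_finsup_le s f v
  have h4 := h_finsup_le r f v
  have h5 := h_finsup_le t f v
  have h6 : ∑ i, h (f i) v = ∑ i ∈ s, h (f i) v + ∑ i ∈ t, h (f i) v + ∑ i ∈ r, h (f i) v := by
    rw [← Finset.sum_union hst, hr, Finset.sum_add_sum_compl]
  have h7 : h (s.sup f) v = h (s.sup f) v := rfl
  -- the sum of the three groups
  have h8 : h (t.sup f) v ≤ ∑ i ∈ t, h (f i) v := h5
  linarith

end lattice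

/-- a STAR: projections to `T` with a common value of the family `f` (a point), conditionally independent given `f` -/
structure IsStar {T W : Sp} {κ ι : Type} [Fintype κ] [Fintype ι] (f : κ → QS T) (p : ι → Pj W T) : Prop where
  com : ∀ i j a, (p i).qs (f a) = (p j).qs (f a)
  ind : ∀ (i0 : ι) (A : ι → T.L), h (Finset.univ.sup fun i => (p i).map (A i)) ((p i0).map (vd f 1)) =
    ∑ i, h (A i) (vd f 1)

namespace IsStar

variable {T W : Sp} {κ ι : Type} [Fintype κ] [Fintype ι] {f : κ → QS T} {p : ι → Pj W T}

theorem com_vd (hs : IsStar f p) (i j : ι) (r : ℝ) : (p i).map (vd f r) = (p j).map (vd f r) := by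
  rw [← (p i).qs_vd, ← (p j).qs_vd]
  congr 1
  funext a
  exact hs.com i j a

theorem h_map_v (hs : IsStar f p) (i j : ι) (x : T.L) : h ((p i).map x) ((p j).map (vd f 1)) = h x (vd f 1) := by
  rw [hs.com_vd j i, Pj.h_map]

theorem ind' (hs : IsStar f p) (i0 : ι) (A : ι → T.L) :
    h (Finset.univ.sup fun i => (p i).map (A i)) ((p i0).map (vd f 1)) =
      ∑ i, h ((p i).map (A i)) ((p i0).map (vd f 1)) := by
  rw [hs.ind i0 A]
  exact Finset.sum_congr rfl fun i _ => (hs.h_map_v i i0 (A i)).symm

/-- different groups of lines are conditionally independent -/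
theorem I_sup [DecidableEq ι] (hs : IsStar f p) {s t : Finset ι} (hst : Disjoint s t) (i0 : ι) (A : ι → T.L) :
    I (s.sup fun i => (p i).map (A i)) (t.sup fun i => (p i).map (A i)) ((p i0).map (vd f 1)) = 0 :=
  I_of_sum _ _ (hs.ind' i0 A) hst

/-- extensions of stars -/
theorem pull (hs : IsStar f p) {R : Sp} (r : Pj R W) : IsStar f (fun i => r.comp (p i)) where
  com i j a := by rw [Pj.comp_qs, Pj.comp_qs, hs.com i j a]
  ind i0 A := by
    simp only [Pj.comp_map]
    rw [← r.map_finsup, Pj.h_map]
    exact hs.ind i0 A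

/-- labels of the lines which are independent of the point are jointly independent of the point -/
theorem I_free (hs : IsStar f p) (i0 : ι) (A : ι → T.L) (hA : ∀ i, I (A i) (vd f 1) ⊥ = 0) :
    I (Finset.univ.sup fun i => (p i).map (A i)) ((p i0).map (vd f 1)) ⊥ = 0 := by
  apply I_finsup_zero _ _ _ bot_le
  · exact hs.ind' i0 A
  · intro i
    rw [hs.com_vd i0 i, ← Pj.map_bot (p i), Pj.I_map]
    exact hA i

/-- free labels of different groups of lines are independent -/
theorem I_free_two [DecidableEq ι] [Nonempty ι] (hs : IsStar f p) {s t : Finset ι} (hst : Disjoint s t) (A : ι → T.L)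
    (hA : ∀ i, I (A i) (vd f 1) ⊥ = 0) :
    I (s.sup fun i => (p i).map (A i)) (t.sup fun i => (p i).map (A i)) ⊥ = 0 := by
  obtain ⟨i0⟩ := ‹Nonempty ι›
  have h1 := hs.I_free i0 A hA
  have h2 := hs.I_sup hst i0 A
  have h3 : I (s.sup fun i => (p i).map (A i)) ((p i0).map (vd f 1)) ⊥ = 0 :=
    ind_of h1 le_rfl bot_le ((Finset.sup_mono (Finset.subset_univ s)).trans le_sup_left) le_sup_left
  exact ind_of (ind_add h3 h2 (by rw [sup_bot_eq])) le_rfl bot_le le_sup_left
    (le_sup_right.trans le_sup_left)

/-- the point and one line are independent of the free labels of the other lines -/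
theorem I_free_line [DecidableEq ι] (hs : IsStar f p) (i0 : ι) {s : Finset ι} (hi : i0 ∉ s) (A : ι → T.L)
    (hA : ∀ i, I (A i) (vd f 1) ⊥ = 0) (x : T.L) :
    I (s.sup fun i => (p i).map (A i)) ((p i0).map (vd f 1) ⊔ (p i0).map x) ⊥ = 0 := by
  have h1 := hs.I_free i0 A hA
  have h3 : I (s.sup fun i => (p i).map (A i)) ((p i0).map (vd f 1)) ⊥ = 0 :=
    ind_of h1 le_rfl bot_le ((Finset.sup_mono (Finset.subset_univ s)).trans le_sup_left) le_sup_left
  have h2 := hs.I_sup (s := s) (t := {i0}) (by simpa using hi) i0 (fun i => if i = i0 then x else A i)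
  have e1 : (s.sup fun i => (p i).map (if i = i0 then x else A i)) = s.sup fun i => (p i).map (A i) := by
    apply Finset.sup_congr rfl
    intro i hi'
    rw [if_neg (fun hc => hi (by rw [← hc]; exact hi'))]
  rw [e1, Finset.sup_singleton, if_pos rfl] at h2
  exact ind_add h3 h2 (by rw [sup_bot_eq])

/-- two copies of a star given the point form a star -/
theorem double (hs : IsStar f p) {R : Sp} (r1 r2 : Pj R W)
    (hc : ∀ i a, r1.qs ((p i).qs (f a)) = r2.qs ((p i).qs (f a)))
    (hI : ∀ i x y, I (r1.map x) (r2.map y) (r1.map ((p i).map (vd f 1))) = 0) :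
    IsStar f (Sum.elim (fun i => r1.comp (p i)) (fun i => r2.comp (p i)) : ι ⊕ ι → Pj R T) := by
  have hcv : ∀ i, r1.map ((p i).map (vd f 1)) = r2.map ((p i).map (vd f 1)) := by
    intro i
    rw [← (p i).qs_vd, ← r1.qs_vd, ← r2.qs_vd]
    congr 1
    funext a
    exact hc i a
  refine ⟨?_, ?_⟩
  · rintro (i | i) (j | j) a
    · show (r1.comp (p i)).qs (f a) = (r1.comp (p j)).qs (f a)
      rw [Pj.comp_qs, Pj.comp_qs, hs.com i j a]
    · show (r1.comp (p i)).qs (f a) = (r2.comp (p j)).qs (f a)
      rw [Pj.comp_qs, Pj.comp_qs, hs.com i j a, hc]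
    · show (r2.comp (p i)).qs (f a) = (r1.comp (p j)).qs (f a)
      rw [Pj.comp_qs, Pj.comp_qs, hs.com i j a, hc]
    · show (r2.comp (p i)).qs (f a) = (r2.comp (p j)).qs (f a)
      rw [Pj.comp_qs, Pj.comp_qs, hs.com i j a]
  · have key : ∀ (j : ι) (A : ι ⊕ ι → T.L), h (Finset.univ.sup fun i : ι ⊕ ι =>
        (Sum.elim (fun i => r1.comp (p i)) (fun i => r2.comp (p i)) i : Pj R T).map (A i))
        (r1.map ((p j).map (vd f 1))) = ∑ i, h (A i) (vd f 1) := by
      intro j A
      have c1 : ∀ (i : ι) (x : T.L), (Sum.elim (fun i => r1.comp (p i)) (fun i => r2.comp (p i)) (Sum.inl i) :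
          Pj R T).map x = r1.map ((p i).map x) := fun i x => Pj.comp_map _ _ _
      have c2 : ∀ (i : ι) (x : T.L), (Sum.elim (fun i => r1.comp (p i)) (fun i => r2.comp (p i)) (Sum.inr i) :
          Pj R T).map x = r2.map ((p i).map x) := fun i x => Pj.comp_map _ _ _
      have e1 : (Finset.univ.sup fun i : ι ⊕ ι =>
        (Sum.elim (fun i => r1.comp (p i)) (fun i => r2.comp (p i)) i : Pj R T).map (A i)) =
        r1.map (Finset.univ.sup fun i => (p i).map (A (Sum.inl i))) ⊔
          r2.map (Finset.univ.sup fun i => (p i).map (A (Sum.inr i))) := by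
        rw [r1.map_finsup, r2.map_finsup]
        apply le_antisymm
        · apply Finset.sup_le
          rintro (i | i) _
          · refine le_trans ?_ le_sup_left
            rw [c1]
            exact Finset.le_sup (f := fun i => r1.map ((p i).map (A (Sum.inl i)))) (Finset.mem_univ i)
          · refine le_trans ?_ le_sup_right
            rw [c2]
            exact Finset.le_sup (f := fun i => r2.map ((p i).map (A (Sum.inr i)))) (Finset.mem_univ i)
        · apply sup_le
          · apply Finset.sup_le
            intro i _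
            rw [← c1]
            exact Finset.le_sup (f := fun i : ι ⊕ ι =>
              (Sum.elim (fun i => r1.comp (p i)) (fun i => r2.comp (p i)) i : Pj R T).map (A i))
              (Finset.mem_univ (Sum.inl i))
          · apply Finset.sup_le
            intro i _
            rw [← c2]
            exact Finset.le_sup (f := fun i : ι ⊕ ι =>
              (Sum.elim (fun i => r1.comp (p i)) (fun i => r2.comp (p i)) i : Pj R T).map (A i))
              (Finset.mem_univ (Sum.inr i))
      rw [e1, h_chain, Fintype.sum_sum_type]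
      congr 1
      · rw [Pj.h_map]
        exact hs.ind j _
      · have h1 := hI j (Finset.univ.sup fun i => (p i).map (A (Sum.inl i)))
          (Finset.univ.sup fun i => (p i).map (A (Sum.inr i)))
        rw [I_zero_iff_h'] at h1
        rw [h1, hcv, Pj.h_map]
        exact hs.ind j _
    rintro (j | j) A
    · show h _ ((r1.comp (p j)).map (vd f 1)) = _
      rw [Pj.comp_map]
      exact key j A
    · show h _ ((r2.comp (p j)).map (vd f 1)) = _
      rw [Pj.comp_map, ← hcv]
      exact key j A

end IsStar

/-- stars exist -/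
theorem exists_isStar {T : Sp} {κ : Type} [Fintype κ] (f : κ → QS T) (N : ℕ) :
    ∃ (W : Sp) (p : Fin (N + 1) → Pj W T), IsStar f p := by
  obtain ⟨C⟩ := exists_CQ f N
  refine ⟨C.W, C.p, fun i j a => C.com i j a, fun i0 A => ?_⟩
  rw [C.p_vd i0 1]
  exact C.ind A

end

end Pool.Agent.Helper99.EC
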