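import Pool.Agent.Helper19.SP.MvU
import Pool.Agent.Helper19.SP.Absorb

/-! Exact entropy calculus: absorption of a polynomial in several real variables by a robustly unsaturated function;
dropping independent conditions from `UnS`. -/

set_option autoImplicit false

namespace Pool.Agent.Helper99.EC

open Pool.Agent.Helper31.EC QS

noncomputable section

variable {S : Sp}

/-- independent conditions can be dropped -/
theorem UnS.drop {z : QS S} {A : S.L} {a0 c : ℝ} (hu : UnS z A a0 c) (hI : I A (dg z 1) ⊥ = 0) : UnS z ⊥ a0 c := by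
  intro T p E hE a b h1 h2 h3
  have h4 := hu T p E hE a b h1 h2 h3
  have e1 : p.map (dg z a ⊔ ⊥) = p.map (dg z a) := by rw [sup_bot_eq]
  rw [e1]
  -- independence on the event
  have i1 : I A (dg z b) (dg z a) = 0 := by
    have a1 : I A (dg z 1) (dg z a ⊔ ⊥) = 0 := by
      rw [I_comm] at hI ⊢
      exact le_antisymm (hI ▸ I_cond_le (dg_mono z (h2.trans h3))) (I_nonneg _ _ _)
    rw [sup_bot_eq] at a1
    exact I_zero_mono a1 le_sup_left ((dg_mono z h3).trans le_sup_left)
  have i2 : I (p.map A) (p.map (dg z b)) (p.map (dg z a)) = 0 := by rw [Pj.I_map]; exact i1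
  have i3 := Sp.I_rest_zero E hE i2
  rw [I_zero_iff_h'] at i3
  rw [← i3]
  refine (le_of_eq ?_).trans h4
  rw [p.map_sup, Sp.restL_sup, sup_comm]

/-- a function which is known to independent conditions can be subtracted -/
theorem UnS.sub_known {z f : QS S} {A : S.L} {a0 c : ℝ} (hu : UnS z A a0 c) (hf : dg f 1 ≤ A) : UnS (z - f) A a0 c := by
  intro T p E hE a b h1 h2 h3
  have h4 := hu T p E hE a b h1 h2 h3
  have hf' : ∀ r : ℝ, r ≤ 1 → dg f r ≤ A := fun r hr => (dg_mono f hr).trans hf
  have ea : dg (z - f) a ⊔ A = dg z a ⊔ A := by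
    apply le_antisymm
    · have h5 := dg_sub_le z f (h2.trans h3)
      have h6 := hf' a (h2.trans h3)
      order
    · have h5 := dg_add_le (z - f) f (h2.trans h3)
      rw [sub_add_cancel] at h5
      have h6 := hf' a (h2.trans h3)
      order
  have eb : dg (z - f) b ⊔ A = dg z b ⊔ A := by
    apply le_antisymm
    · have h5 := dg_sub_le z f h3
      have h6 := hf' b h3
      order
    · have h5 := dg_add_le (z - f) f h3
      rw [sub_add_cancel] at h5
      have h6 := hf' b h3
      order
  rw [ea]
  refine (le_of_eq ?_).trans h4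
  have e5 : Sp.restL E hE (p.map (dg (z - f) b)) ⊔ Sp.restL E hE (p.map A) =
      Sp.restL E hE (p.map (dg z b)) ⊔ Sp.restL E hE (p.map A) := by
    rw [← Sp.restL_sup, ← Sp.restL_sup, ← p.map_sup, ← p.map_sup, eb]
  have e6 : Sp.restL E hE (p.map A) ≤ Sp.restL E hE (p.map (dg z a ⊔ A)) :=
    Sp.restL_mono E hE (p.map_mono le_sup_right)
  apply h_congr_left
  · order
  · order

/-- ABSORPTION of a polynomial in several real variables -/
theorem absorb_mv {a0 γ : ℝ} (ha0 : a0 < 1) (hγ : 0 < γ) : ∀ (D : ℕ) (A : S.L) (x : Fin D → QS S)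
    (P : MvPolynomial (Fin D) (QS S)) (z z' : QS S), Rl x (A ⊔ dg z' 1) → P ∈ PK A →
    z = z' - MvPolynomial.eval x P → UnS z A a0 γ → P = MvPolynomial.C (P.coeff 0) := by
  classical
  intro D
  induction D with
  | zero =>
    intro A x P z z' _ _ _ _
    exact MvPolynomial.eq_C_of_isEmpty P
  | succ D ih =>
    intro A x P z z' hx hP hz hu
    set x' : Fin D → QS S := fun i => x i.succ with hx'
    have e1 : x = Fin.cons (x 0) x' := by
      funext i
      induction i using Fin.cases with
      | zero => rw [Fin.cons_zero]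
      | succ i => rw [Fin.cons_succ]
    set F := MvPolynomial.finSuccEquiv (QS S) D P with hF
    set Q := Polynomial.map (MvPolynomial.eval x') F with hQ
    have hev : MvPolynomial.eval x P = Q.eval (x 0) := by
      rw [e1, MvPolynomial.eval_eq_eval_mv_eval']
      rfl
    have hFk : ∀ a, F.coeff a ∈ PK A := by
      intro a m
      rw [hF, MvPolynomial.finSuccEquiv_coeff_coeff]
      exact hP _
    have hxr : Rl x' (A ⊔ dg z' 1) := hx.comp Fin.succ (Fin.succ_injective D)
    have hc : ∀ a, dg (Q.coeff a) 1 ≤ vd x' 1 ⊔ A := by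
      intro a
      rw [hQ, Polynomial.coeff_map]
      exact eval_mem (hFk a) x' le_sup_right (fun i => (dg_le_vd x' 1 i).trans le_sup_left)
    have hx0 : h (dg (x 0) 1) (vd x' 1 ⊔ A ⊔ dg z' 1) = 1 := by
      have h1 := hx.sub (s := {0}) (t := Finset.univ.erase 0) (by simp)
      have h2 : sd x (Finset.univ.erase 0) = vd x' 1 := by
        apply le_antisymm
        · rw [sd_le]
          intro j hj
          rw [Finset.mem_erase] at hj
          induction j using Fin.cases with
          | zero => exact absurd rfl hj.1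
          | succ j => exact dg_le_vd x' 1 j
        · rw [vd_le]
          intro j
          exact dg_le_sd x (Finset.mem_erase.mpr ⟨Fin.succ_ne_zero j, Finset.mem_univ _⟩)
      rw [h2, ← sup_assoc] at h1
      simpa [sd] using h1
    have hQ0 : ∀ j, j ≠ 0 → Q.coeff j = 0 := by
      intro j hj
      set k := max Q.natDegree j with hk
      have h1 := absorb (k := k) (vd x' 1 ⊔ A) (fun b : Fin (k + 1) => Q.coeff b) z z' (x 0) (fun b => hc b)
        (by rw [pe_eval Q (x 0) k (Nat.lt_succ_of_le (le_max_left _ _)), ← hev]; exact hz) hx0 a0 γ ha0 hγ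
        (hu.mono le_sup_right) ⟨j, Nat.lt_succ_of_le (le_max_right _ _)⟩ (by
          intro hc0
          have := congrArg Fin.val hc0
          exact hj this)
      exact h1
    have hF0 : ∀ j, j ≠ 0 → F.coeff j = 0 := by
      intro j hj
      apply mv_eq_zero D A x' (F.coeff j) (hxr.anti le_sup_left) (hFk j)
      have h1 := hQ0 j hj
      rw [hQ, Polynomial.coeff_map] at h1
      exact h1
    have hFC : F = Polynomial.C (F.coeff 0) := by
      ext j : 1
      by_cases hj : j = 0
      · rw [hj, Polynomial.coeff_C_zero]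
      · rw [hF0 j hj, Polynomial.coeff_C_of_ne_zero hj]
    have hQC : Q.eval (x 0) = MvPolynomial.eval x' (F.coeff 0) := by
      rw [hQ, hFC, Polynomial.map_C, Polynomial.eval_C, Polynomial.coeff_C_zero]
    have h3 := ih A x' (F.coeff 0) z z' hxr (hFk 0) (by rw [← hQC, ← hev]; exact hz) hu
    have h4 : F = Polynomial.C (MvPolynomial.C ((F.coeff 0).coeff 0)) := by
      rw [← h3]; exact hFC
    have h5 : (F.coeff 0).coeff 0 = P.coeff 0 := by
      rw [hF, MvPolynomial.finSuccEquiv_coeff_coeff]
      congr 1
      ext i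
      induction i using Fin.cases with
      | zero => simp
      | succ i => simp
    rw [h5] at h4
    have h7 : MvPolynomial.finSuccEquiv (QS S) D (MvPolynomial.C (P.coeff 0)) =
        Polynomial.C (MvPolynomial.C (P.coeff 0)) := by
      have := (MvPolynomial.finSuccEquiv (QS S) D).commutes (P.coeff 0)
      exact this
    apply (MvPolynomial.finSuccEquiv (QS S) D).injective
    rw [h7, ← h4]

end

end Pool.Agent.Helper99.EC
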