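import Pool.Agent.Helper99.EC.Pot
import Pool.Agent.Helper99.EC.Abs
import Pool.Agent.Helper19.SP.Walk

/-! Exact entropy calculus: the leaf function of a star (76 (B), (C)): `g = z - f(q)` is independent of the base point,
robustly unsaturated, and two leaf functions of stars which have a common line agree. -/

set_option autoImplicit false

namespace Pool.Agent.Helper99.EC

open Pool.Agent.Helper31.EC QS
open Pool.Agent.Helper38.NS

noncomputable section

namespace SPot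

variable {T : Sp} {d : ℕ} {s : FB T d} {K : ℕ} {ι : Type} [Fintype ι] {W : Sp} {p : ι → Pj W T}

/-- the value of the leaf function -/
def g (Φ : SPot s K p) (i0 : ι) : QS W :=
  (p i0).qs s.z - MvPolynomial.eval (fun a => (p i0).qs (s.q a)) Φ.f

theorem z_eq (s : FB T d) : s.z = s.b + s.t * s.F := rfl

/-- the time is real over a line and the directions of the other lines -/
theorem ht_line (hy : s.Hyp) (hX : I s.iX s.iP ⊥ = 0) (hs : IsStar s.fQ p) (k : ι) :
    h ((p k).map s.iT) ((p k).map (s.iL ⊔ s.iB) ⊔ Finset.univ.sup fun i => (p i).map s.iX) = 1 := by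
  classical
  obtain ⟨U', hU'⟩ : ∃ U', U' = (Finset.univ.erase k).sup fun i => (p i).map s.iX := ⟨_, rfl⟩
  have h1 := hs.I_free_line k (s := Finset.univ.erase k) (Finset.notMem_erase k _) (fun _ => s.iX)
    (fun _ => by rw [FB.vd_fP]; exact hX) (s.iL ⊔ s.iB)
  rw [FB.vd_fP, ← hU'] at h1
  have h2 : I U' ((p k).map s.iT) ((p k).map (s.iL ⊔ s.iB)) = 0 := by
    refine ind_of h1 bot_le (le_sup_right.trans le_sup_left) le_sup_left ?_
    refine le_trans ?_ le_sup_left
    refine le_trans ?_ le_sup_left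
    apply (p k).map_mono
    unfold FB.iP
    order
  rw [I_zero_iff_h', Pj.h_map, hy.ht] at h2
  apply le_antisymm
  · refine (h_anti (le_sup_left : (p k).map (s.iL ⊔ s.iB) ≤ _)).trans ?_
    rw [Pj.h_map, hy.ht]
  · refine h2.ge.trans (h_anti ?_)
    apply sup_le (le_sup_right)
    apply Finset.sup_le
    intro i _
    by_cases hi : i = k
    · rw [hi]
      refine le_trans ?_ le_sup_right
      apply (p k).map_mono
      unfold FB.iX FB.iL
      order
    · refine le_trans ?_ le_sup_left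
      rw [hU']
      exact Finset.le_sup (f := fun i => (p i).map s.iX) (Finset.mem_erase.mpr ⟨hi, Finset.mem_univ _⟩)

/-- (B): the value of the leaf function is independent of the base point -/
theorem indep (hy : s.Hyp) (hX : I s.iX s.iP ⊥ = 0) (hs : IsStar s.fQ p) (hsp : Span s p)
    (Φ : SPot s K p) (hfree : Φ.f ∈ PK (⊥ : W.L)) (i0 : ι) :
    I (vd (fun a => (p i0).qs (s.q a)) 1) (dg (Φ.g i0) 1) ⊥ = 0 := by
  classical
  obtain ⟨e, he⟩ := hsp
  set U := Finset.univ.sup fun i => (p i).map s.iX with hU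
  -- the walk
  set G : (ι × Fin (d + 1)) ⊕ Φ.f.support → QS W :=
    Sum.elim (fun a => (p a.1).qs (s.v a.2)) (fun m => Φ.f.coeff m.1) with hG
  set t : QS W := (p i0).qs s.t with ht
  set c : Fin (d + 1) ⊕ Unit → QS W := Sum.elim (fun a => (p i0).qs (s.q a)) (fun _ => (p i0).qs s.z) with hc
  set sl : ι → Fin (d + 1) ⊕ Unit → QS W := fun k => Sum.elim (fun a => (p k).qs (s.v a)) (fun _ => (p k).qs s.F)
    with hsl
  have hct : ∀ i, (p i).qs s.t = t := fun i => hs.com i i0 (Sum.inl 0)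
  have hcz : ∀ i, (p i).qs s.z = (p i0).qs s.z := fun i => hs.com i i0 (Sum.inr ())
  have hcq : ∀ i a, (p i).qs (s.q a) = (p i0).qs (s.q a) := fun i a => hs.com i i0 (Sum.inl a)
  have hVd : ∀ k, vd (lnf G t c (sl k)) 1 ≤ (p k).map (s.iL ⊔ s.iB) ⊔ U := by
    intro k
    have hline : ∀ x : QS T, dg x 1 ≤ s.iL ⊔ s.iB → dg ((p k).qs x) 1 ≤ (p k).map (s.iL ⊔ s.iB) ⊔ U := by
      intro x hx
      rw [(p k).qs_dg]
      exact ((p k).map_mono hx).trans le_sup_left
    have hL1 : s.iL ≤ s.iL ⊔ s.iB := le_sup_left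
    rw [vd_le]
    rintro ((a | m) | (a | a) | (a | a))
    · show dg ((p a.1).qs (s.v a.2)) 1 ≤ _
      rw [(p a.1).qs_dg]
      refine le_trans ?_ le_sup_right
      refine le_trans ((p a.1).map_mono ((dg_le_vd s.v 1 a.2).trans (le_of_eq s.vd_v))) ?_
      exact Finset.le_sup (f := fun i => (p i).map s.iX) (Finset.mem_univ a.1)
    · show dg (Φ.f.coeff m.1) 1 ≤ _
      exact (hfree m.1).trans bot_le
    · show dg ((p k).qs (s.v a)) 1 ≤ _
      apply hline
      refine (dg_le_vd s.v 1 a).trans ?_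
      rw [s.vd_v]
      unfold FB.iX FB.iL
      order
    · show dg ((p k).qs s.F) 1 ≤ _
      exact hline _ (hy.hF.trans le_sup_left)
    · show dg ((p i0).qs (s.q a) - t * (p k).qs (s.v a)) 1 ≤ _
      have e1 : (p i0).qs (s.q a) - t * (p k).qs (s.v a) = (p k).qs (s.av a) := by
        rw [← hcq k a, ← hct k, s.q_eq a, map_add, map_mul]
        ring
      rw [e1]
      apply hline
      induction a using Fin.cases with
      | zero => exact (Kn T 1 le_rfl _).zero_mem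
      | succ a =>
        refine (dg_le_vd s.a 1 a).trans ?_
        unfold FB.iL
        order
    · show dg ((p i0).qs s.z - t * (p k).qs s.F) 1 ≤ _
      have e1 : (p i0).qs s.z - t * (p k).qs s.F = (p k).qs s.b := by
        rw [← hcz k, ← hct k, z_eq s, map_add, map_mul]
        ring
      rw [e1]
      apply hline
      unfold FB.iB
      order
  have hreal : ∀ k, h (dg t 1) (vd (lnf G t c (sl k)) 1) = 1 := by
    intro k
    apply le_antisymm (h_dg_le_one _ _)
    have h1 := ht_line hy hX hs k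
    have h2 : dg t 1 = (p k).map s.iT := by
      rw [← hct k, (p k).qs_dg]
      rfl
    rw [h2]
    exact h1.ge.trans (h_anti (hVd k))
  obtain ⟨w⟩ := exists_walk G t c sl hreal (d + 1) e
  -- the frozen labels
  have wv : ∀ a i b, (w.p a).qs ((p i).qs (s.v b)) = (w.p 0).qs ((p i).qs (s.v b)) :=
    fun a i b => w.com a 0 (Sum.inl (i, b))
  have wf : ∀ a, MvPolynomial.map (w.p a).qs Φ.f = MvPolynomial.map (w.p 0).qs Φ.f := by
    intro a
    ext m
    rw [MvPolynomial.coeff_map, MvPolynomial.coeff_map]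
    by_cases hm : m ∈ Φ.f.support
    · exact w.com a 0 (Sum.inr ⟨m, hm⟩)
    · rw [MvPolynomial.notMem_support_iff.mp hm, map_zero, map_zero]
  have wq : ∀ k a, (w.p k.succ).qs ((p i0).qs (s.q a)) = (w.p k.castSucc).qs ((p i0).qs (s.q a)) +
      w.τ k * (w.p k.castSucc).qs ((p (e k)).qs (s.v a)) := fun k a => w.hc k (Sum.inl a)
  have wz : ∀ k, (w.p k.succ).qs ((p i0).qs s.z) = (w.p k.castSucc).qs ((p i0).qs s.z) +
      w.τ k * (w.p k.castSucc).qs ((p (e k)).qs s.F) := fun k => w.hc k (Sum.inr ())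
  -- the value is conserved
  have wg1 : ∀ k : Fin (d + 1), (w.p k.succ).qs (Φ.g i0) = (w.p k.castSucc).qs (Φ.g i0) := by
    intro k
    have h1 := Φ.dv (e k) w.R (w.p k.castSucc) (fun a => (w.p k.castSucc).qs ((p i0).qs (s.q a))) (w.τ k)
    have h2 : MvPolynomial.eval (fun a => (w.p k.castSucc).qs ((p i0).qs (s.q a)))
        (MvPolynomial.map (w.p k.castSucc).qs (Φ.P (e k))) = (w.p k.castSucc).qs ((p (e k)).qs s.F) := by
      rw [← qs_eval]
      congr 1
      rw [← Φ.ev (e k)]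
      congr 2
      funext a
      exact (hcq (e k) a).symm
    rw [h2] at h1
    unfold g
    rw [map_sub, map_sub, qs_eval, qs_eval, wf k.succ]
    rw [wf k.castSucc] at h1 ⊢
    have h3 : (fun a => (w.p k.succ).qs ((p i0).qs (s.q a))) = fun a =>
        (w.p k.castSucc).qs ((p i0).qs (s.q a)) + w.τ k * (w.p k.castSucc).qs ((p (e k)).qs (s.v a)) := by
      funext a
      exact wq k a
    rw [h3, wz k]
    linear_combination -h1
  have wg : ∀ k : Fin (d + 1 + 1), (w.p k).qs (Φ.g i0) = (w.p 0).qs (Φ.g i0) := by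
    intro k
    induction k using Fin.induction with
    | zero => rfl
    | succ k ih => rw [wg1 k]; exact ih
  -- the displacement
  have wd : ∀ (k : ℕ) (hk : k < d + 1 + 1) a, (w.p ⟨k, hk⟩).qs ((p i0).qs (s.q a)) =
      (w.p 0).qs ((p i0).qs (s.q a)) + ∑ j : Fin (d + 1), if (j : ℕ) < k then
        w.τ j * (w.p 0).qs ((p (e j)).qs (s.v a)) else 0 := by
    intro k
    induction k with
    | zero =>
      intro hk a
      simp
    | succ k ih =>
      intro hk a
      have hk' : k < d + 1 := Nat.lt_of_succ_lt_succ hk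
      have h1 := wq ⟨k, hk'⟩ a
      have h2 := ih (Nat.lt_of_succ_lt hk) a
      have h3 : (⟨k, hk'⟩ : Fin (d + 1)).castSucc = ⟨k, Nat.lt_of_succ_lt hk⟩ := rfl
      have h4 : (⟨k, hk'⟩ : Fin (d + 1)).succ = ⟨k + 1, hk⟩ := rfl
      rw [h3, h4] at h1
      rw [h1, h2, wv ⟨k, Nat.lt_of_succ_lt hk⟩, add_assoc]
      congr 1
      rw [← Finset.sum_erase_add Finset.univ (fun j : Fin (d + 1) => if (j : ℕ) < k then
        w.τ j * (w.p 0).qs ((p (e j)).qs (s.v a)) else 0) (Finset.mem_univ (⟨k, hk'⟩ : Fin (d + 1))),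
        ← Finset.sum_erase_add Finset.univ (fun j : Fin (d + 1) => if (j : ℕ) < k + 1 then
        w.τ j * (w.p 0).qs ((p (e j)).qs (s.v a)) else 0) (Finset.mem_univ (⟨k, hk'⟩ : Fin (d + 1)))]
      rw [if_neg (lt_irrefl k), add_zero, if_pos (Nat.lt_succ_self k)]
      congr 1
      apply Finset.sum_congr rfl
      intro j hj
      have h5 : (j : ℕ) ≠ k := by
        intro hc
        exact (Finset.mem_erase.mp hj).1 (Fin.ext hc)
      by_cases h6 : (j : ℕ) < k
      · rw [if_pos h6, if_pos (Nat.lt_succ_of_lt h6)]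
      · rw [if_neg h6, if_neg (fun hc => h6 (lt_of_le_of_ne (Nat.lt_succ_iff.mp hc) h5))]
  obtain ⟨q1, hq1⟩ : ∃ q1 : Fin (d + 1) → QS w.R, q1 = fun a => (w.p (Fin.last (d + 1))).qs ((p i0).qs (s.q a)) :=
    ⟨_, rfl⟩
  obtain ⟨q0, hq0⟩ : ∃ q0 : Fin (d + 1) → QS w.R, q0 = fun a => (w.p 0).qs ((p i0).qs (s.q a)) := ⟨_, rfl⟩
  obtain ⟨V, hV⟩ : ∃ V : Matrix (Fin (d + 1)) (Fin (d + 1)) (QS w.R),
    V = Matrix.of fun i a => (w.p 0).qs ((p (e i)).qs (s.v a)) := ⟨_, rfl⟩
  have hVu : IsUnit V.det := by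
    have h1 : V = (Matrix.of fun i a => (p (e i)).qs (s.v a)).map (w.p 0).qs := by
      rw [hV]
      rfl
    rw [h1]
    have h2 := RingHom.map_det (w.p 0).qs (Matrix.of fun i a => (p (e i)).qs (s.v a))
    rw [RingHom.mapMatrix_apply] at h2
    rw [← h2]
    exact he.map (w.p 0).qs
  have hdis : Matrix.vecMul w.τ V = fun a => q1 a - q0 a := by
    funext a
    have h1 := wd (d + 1) (Nat.lt_succ_self _) a
    have h2 : (⟨d + 1, Nat.lt_succ_self _⟩ : Fin (d + 1 + 1)) = Fin.last (d + 1) := rfl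
    rw [h2] at h1
    rw [hq1, hq0]
    show Matrix.vecMul w.τ V a = (w.p (Fin.last (d + 1))).qs ((p i0).qs (s.q a)) - (w.p 0).qs ((p i0).qs (s.q a))
    rw [h1, add_sub_cancel_left, hV]
    unfold Matrix.vecMul dotProduct
    apply Finset.sum_congr rfl
    intro j _
    rw [if_pos j.2]
    rfl
  have hτ : w.τ = Matrix.vecMul (fun a => q1 a - q0 a) V⁻¹ := by
    rw [← hdis, Matrix.vecMul_vecMul, Matrix.mul_nonsing_inv _ hVu, Matrix.vecMul_one]
  -- knowledge
  obtain ⟨X, hX'⟩ : ∃ X : w.R.L, X = (w.p 0).map (dg (Φ.g i0) 1 ⊔ (vd (fun a => (p i0).qs (s.q a)) 1 ⊔ U)) := ⟨_, rfl⟩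
  have hVk : ∀ i j, dg (V i j) 1 ≤ vd q1 1 ⊔ X := by
    intro i j
    rw [hV]
    show dg ((w.p 0).qs ((p (e i)).qs (s.v j))) 1 ≤ _
    rw [(w.p 0).qs_dg, (p (e i)).qs_dg]
    refine le_trans ?_ le_sup_right
    rw [hX']
    apply (w.p 0).map_mono
    refine le_trans ?_ le_sup_right
    refine le_trans ?_ le_sup_right
    refine le_trans ((p (e i)).map_mono ((dg_le_vd s.v 1 j).trans (le_of_eq s.vd_v))) ?_
    exact Finset.le_sup (f := fun i => (p i).map s.iX) (Finset.mem_univ (e i))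
  have hτk : vd w.τ 1 ≤ vd q1 1 ⊔ X := by
    rw [vd_le]
    intro j
    rw [hτ]
    unfold Matrix.vecMul dotProduct
    apply (Kn w.R 1 le_rfl (vd q1 1 ⊔ X)).sum_mem
    intro a _
    apply (Kn w.R 1 le_rfl (vd q1 1 ⊔ X)).mul_mem
    · apply (Kn w.R 1 le_rfl (vd q1 1 ⊔ X)).sub_mem
      · exact (dg_le_vd q1 1 a).trans le_sup_left
      · show dg (q0 a) 1 ≤ _
        refine le_trans ?_ le_sup_right
        rw [hX', hq0]
        show dg ((w.p 0).qs ((p i0).qs (s.q a))) 1 ≤ _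
        rw [(w.p 0).qs_dg]
        apply (w.p 0).map_mono
        refine le_trans ?_ le_sup_right
        exact (dg_le_vd (fun a => (p i0).qs (s.q a)) 1 a).trans le_sup_left
    · exact inv_mem V le_rfl _ hVk hVu a j
  have hrl := w.rl (dg (Φ.g i0) 1 ⊔ (vd (fun a => (p i0).qs (s.q a)) 1 ⊔ U))
  rw [← hX'] at hrl
  unfold Rl at hrl
  rw [Fintype.card_fin] at hrl
  have hq1l : (d + 1 : ℕ) ≤ h (vd q1 1) X := by
    rw [← hrl]
    have h1 := h_mono (B := X) hτk
    rw [h_sup_right_of_le le_rfl] at h1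
    exact h1
  have hq1u := h_sd_le q1 Finset.univ ⊥
  rw [sd_univ, Finset.card_univ, Fintype.card_fin] at hq1u
  have hI : I (vd q1 1) ((w.p 0).map (dg (Φ.g i0) 1)) ⊥ = 0 := by
    apply le_antisymm _ (I_nonneg _ _ _)
    rw [I_eq]
    have h1 : h (vd q1 1) X ≤ h (vd q1 1) ((w.p 0).map (dg (Φ.g i0) 1) ⊔ ⊥) := by
      apply h_anti
      rw [sup_bot_eq, hX']
      exact (w.p 0).map_mono le_sup_left
    linarith
  have hgg : (w.p 0).map (dg (Φ.g i0) 1) = (w.p (Fin.last (d + 1))).map (dg (Φ.g i0) 1) := by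
    rw [← Pj.qs_dg, ← Pj.qs_dg, wg (Fin.last (d + 1))]
  rw [hgg, hq1, Pj.qs_vd (w.p (Fin.last (d + 1))) (fun a => (p i0).qs (s.q a)) 1, ← Pj.map_bot (w.p (Fin.last (d + 1))), Pj.I_map] at hI
  exact hI

/-- (B): the value of the leaf function is robustly unsaturated -/
theorem uns (hy : s.Hyp) (hX : I s.iX s.iP ⊥ = 0) (hs : IsStar s.fQ p) (hsp : Span s p)
    (Φ : SPot s K p) (hfree : Φ.f ∈ PK (⊥ : W.L)) (i0 : ι) {a0 c : ℝ} (hu : UnS s.z (s.iY ⊔ s.iT) a0 c) :
    UnS (Φ.g i0) ⊥ a0 c := by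
  have hI := Φ.indep hy hX hs hsp hfree i0
  have h1 : UnS ((p i0).qs s.z) (vd (fun a => (p i0).qs (s.q a)) 1) a0 c := by
    have h2 := hu.pull (p i0)
    refine h2.mono ?_
    rw [(p i0).qs_vd]
    apply (p i0).map_mono
    rw [s.vd_q]
    order
  have h2 : UnS (Φ.g i0) (vd (fun a => (p i0).qs (s.q a)) 1) a0 c := by
    apply UnS.sub_known h1
    exact eval_mem hfree _ bot_le (fun a => dg_le_vd (fun a => (p i0).qs (s.q a)) 1 a)
  exact UnS.drop h2 hI

/-- (C): the leaf functions of two stars with a common line agree -/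
theorem line_agree (hy : s.Hyp) (hX : I s.iX s.iP ⊥ = 0) (hq : Rl s.q ⊥) (hs : IsStar s.fQ p) (hsp : Span s p)
    (Φ : SPot s K p) (hfree : Φ.f ∈ PK (⊥ : W.L)) (i0 : ι) {a0 c : ℝ} (ha0 : a0 < 1) (hc0 : 0 < c)
    (hu : UnS s.z (s.iY ⊔ s.iT) a0 c) {R : Sp} (r1 r2 : Pj R W)
    (ha : ∀ j, r1.qs ((p i0).qs (s.a j)) = r2.qs ((p i0).qs (s.a j)))
    (hx : ∀ j, r1.qs ((p i0).qs (s.x j)) = r2.qs ((p i0).qs (s.x j)))
    (hb : r1.qs ((p i0).qs s.b) = r2.qs ((p i0).qs s.b))
    (hF : r1.qs ((p i0).qs s.F) = r2.qs ((p i0).qs s.F)) :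
    MvPolynomial.map r1.qs Φ.f = MvPolynomial.map r2.qs Φ.f ∧ r1.qs (Φ.g i0) = r2.qs (Φ.g i0) := by
  classical
  set q1 : Fin (d + 1) → QS R := fun a => r1.qs ((p i0).qs (s.q a)) with hq1
  set q2 : Fin (d + 1) → QS R := fun a => r2.qs ((p i0).qs (s.q a)) with hq2
  set f1 := MvPolynomial.map r1.qs Φ.f with hf1
  set f2 := MvPolynomial.map r2.qs Φ.f with hf2
  set δ : QS R := r2.qs ((p i0).qs s.t) - r1.qs ((p i0).qs s.t) with hδ
  have hv : ∀ a, r1.qs ((p i0).qs (s.v a)) = r2.qs ((p i0).qs (s.v a)) := by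
    intro a
    induction a using Fin.cases with
    | zero =>
      show r1.qs ((p i0).qs 1) = r2.qs ((p i0).qs 1)
      simp only [map_one]
    | succ a => exact hx a
  have hav : ∀ a, r1.qs ((p i0).qs (s.av a)) = r2.qs ((p i0).qs (s.av a)) := by
    intro a
    induction a using Fin.cases with
    | zero =>
      show r1.qs ((p i0).qs 0) = r2.qs ((p i0).qs 0)
      simp only [map_zero]
    | succ a => exact ha a
  have hq12 : q2 = fun a => q1 a + δ * r1.qs ((p i0).qs (s.v a)) := by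
    funext a
    rw [hq1, hq2]
    simp only [s.q_eq a, map_add, map_mul, hδ]
    rw [hav a, hv a]
    ring
  have hq21 : q1 = fun a => q2 a + (-δ) * r2.qs ((p i0).qs (s.v a)) := by
    funext a
    have := congrFun hq12 a
    rw [this, hv a]
    ring
  have e1 := Φ.dv i0 R r1 q1 δ
  have e2 := Φ.dv i0 R r2 q2 (-δ)
  have e3 : MvPolynomial.eval q1 (MvPolynomial.map r1.qs (Φ.P i0)) = r1.qs ((p i0).qs s.F) := by
    rw [hq1, ← qs_eval, Φ.ev i0]
  have e4 : MvPolynomial.eval q2 (MvPolynomial.map r2.qs (Φ.P i0)) = r2.qs ((p i0).qs s.F) := by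
    rw [hq2, ← qs_eval, Φ.ev i0]
  rw [← hq12, e3] at e1
  rw [← hq21, e4, ← hF] at e2
  have hz : r2.qs ((p i0).qs s.z) = r1.qs ((p i0).qs s.z) + δ * r1.qs ((p i0).qs s.F) := by
    rw [z_eq]
    simp only [map_add, map_mul, hδ]
    rw [hb, hF]
    ring
  have hg1 : r1.qs (Φ.g i0) = r1.qs ((p i0).qs s.z) - MvPolynomial.eval q1 f1 := by
    unfold g
    rw [map_sub, qs_eval]
  have hg2 : r2.qs (Φ.g i0) = r2.qs ((p i0).qs s.z) - MvPolynomial.eval q2 f2 := by
    unfold g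
    rw [map_sub, qs_eval]
  have hgg : r2.qs (Φ.g i0) = r1.qs (Φ.g i0) - MvPolynomial.eval q1 (f2 - f1) := by
    rw [hg1, hg2, hz, map_sub]
    linear_combination e2
  -- reality of the base point over the value
  have hI := Φ.indep hy hX hs hsp hfree i0
  have hqr : Rl (fun a => (p i0).qs (s.q a)) (⊥ ⊔ dg (Φ.g i0) 1) := by
    have h1 := hq.pull (p i0)
    rw [Pj.map_bot] at h1
    unfold Rl at h1 ⊢
    rw [I_zero_iff_h, sup_bot_eq] at hI
    rw [bot_sup_eq, hI, h1]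
  have hqr1 : Rl q1 (⊥ ⊔ dg (r1.qs (Φ.g i0)) 1) := by
    have h1 := hqr.pull r1
    rw [r1.map_sup, Pj.map_bot, ← r1.qs_dg] at h1
    exact h1
  have hfk : f2 - f1 ∈ PK (⊥ : R.L) := by
    have h1 := map_PK r1 hfree
    have h2 := map_PK r2 hfree
    rw [Pj.map_bot] at h1 h2
    exact (PK _).sub_mem h2 h1
  have hu2 : UnS (r2.qs (Φ.g i0)) ⊥ a0 c := by
    have h1 := (Φ.uns hy hX hs hsp hfree i0 hu).pull r2
    rwa [Pj.map_bot] at h1
  have h5 := absorb_mv ha0 hc0 (d + 1) ⊥ q1 (f2 - f1) (r2.qs (Φ.g i0)) (r1.qs (Φ.g i0)) hqr1 hfk hgg hu2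
  have h6 : (f2 - f1).coeff 0 = 0 := by
    rw [MvPolynomial.coeff_sub, hf1, hf2, MvPolynomial.coeff_map, MvPolynomial.coeff_map, Φ.f0, map_zero, map_zero,
      sub_zero]
  rw [h6, map_zero] at h5
  have h7 : f1 = f2 := (sub_eq_zero.mp h5).symm
  refine ⟨h7, ?_⟩
  rw [hgg, h5, map_zero, sub_zero]

end SPot

end

end Pool.Agent.Helper99.EC
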