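import Pool.Agent.Helper99.EC.FinA

/-! Exact entropy calculus: THE FINITE LEAF STATEMENT (76 (D), first part). Over a flat real base the top coordinate of
a system is, on a typical event, a polynomial of the base point whose coefficients are at the same time functions of the
cell of the point and functions of the cell of the line. -/

set_option autoImplicit false

namespace Pool.Agent.Helper99.EC

open Finset Filter Topology Pool.Agent.Helper69.RK
open Pool.Agent.Helper31.EC Pool.Agent.Helper31.EC.Sp QS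
open Pool.Agent.Helper25.EC
open Pool.Agent.Helper38.NS Pool.Agent.Helper38.NS.FB

noncomputable section

open Pool.Agent.Helper3.LF (Mon)

/-- FINITE LEAF STATEMENT: functions `cB` of the cells of `PB` and `cX` of the cells of `PX` with values in the
coefficient vectors of polynomials of degree at most `K` in `N` variables, bounded by `L`, such that outside of an
event of probability `ε` they are `ρ`-close and `z` is `ρ`-close to the value at `q` of the polynomial `cB`. -/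
def LfF (F : FSp) {N : ℕ} (K : ℕ) (q : Fin N → F.Ω → ℝ) (z : F.Ω → ℝ) (PB PX : Setoid F.Ω) (L ρ ε : ℝ) : Prop :=
  ∃ cB cX : F.Ω → Mon N K → ℝ,
    (∀ ω ω', F.μ ω ≠ 0 → F.μ ω' ≠ 0 → F.Z ω ω' → PB ω ω' → cB ω = cB ω') ∧
    (∀ ω ω', F.μ ω ≠ 0 → F.μ ω' ≠ 0 → F.Z ω ω' → PX ω ω' → cX ω = cX ω') ∧
    (∀ ω a, |cB ω a| ≤ L) ∧ (∀ ω a, |cX ω a| ≤ L) ∧
    F.pb (fun ω => ¬ ((∀ a, |cB ω a - cX ω a| ≤ ρ) ∧
      |z ω - ∑ a, cB ω a * ∏ i, q i ω ^ (a.1 i : ℕ)| ≤ ρ)) ≤ ε

theorem LfF.mono {F : FSp} {N : ℕ} {K : ℕ} {q : Fin N → F.Ω → ℝ} {z : F.Ω → ℝ} {PB PX PB' PX' : Setoid F.Ω}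
    {L L' ρ ρ' ε ε' : ℝ} (h : LfF F K q z PB PX L ρ ε) (hB : PB' ≤ PB) (hX : PX' ≤ PX) (hL : L ≤ L') (hρ : ρ ≤ ρ')
    (hε : ε ≤ ε') : LfF F K q z PB' PX' L' ρ' ε' := by
  obtain ⟨cB, cX, h1, h2, h3, h4, h5⟩ := h
  refine ⟨cB, cX, fun ω ω' a b c d => h1 ω ω' a b c (hB d), fun ω ω' a b c d => h2 ω ω' a b c (hX d),
    fun ω a => (h3 ω a).trans hL, fun ω a => (h4 ω a).trans hL, ?_⟩
  refine le_trans ?_ (h5.trans hε)
  apply F.pb_mono
  intro ω _ hc hc'
  exact hc ⟨fun a => (hc'.1 a).trans hρ, hc'.2.trans hρ⟩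

/-- tame functions which represent a system over a flat base -/
structure FT (T : Sp) (d : ℕ) where
  t : TR T
  a : Fin d → TR T
  x : Fin d → TR T
  b : TR T
  F : TR T

namespace FT

variable {T : Sp} {d : ℕ}

/-- the system in the ring of functions to full precision -/
def fb (s : FT T d) : FB T d := ⟨QS.mk s.t, fun i => QS.mk (s.a i), fun i => QS.mk (s.x i), QS.mk s.b, QS.mk s.F⟩

/-- the base point -/
def q (s : FT T d) : Fin (d + 1) → TR T := Fin.cons s.t fun i => s.a i + s.t * s.x i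

/-- the top coordinate -/
def z (s : FT T d) : TR T := s.b + s.t * s.F

theorem fb_q (s : FT T d) (i : Fin (d + 1)) : s.fb.q i = QS.mk (s.q i) := by
  induction i using Fin.cases with
  | zero => rfl
  | succ i =>
    show QS.mk (s.a i) + QS.mk s.t * QS.mk (s.x i) = QS.mk (s.a i + s.t * s.x i)
    rw [map_add, map_mul]

theorem fb_z (s : FT T d) : s.fb.z = QS.mk s.z := by
  show QS.mk s.b + QS.mk s.t * QS.mk s.F = QS.mk (s.b + s.t * s.F)
  rw [map_add, map_mul]

/-- the point -/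
def pv (s : FT T d) : T.VV (d + 1 + 1) := TR.vec (Fin.snoc s.q s.z)

/-- the line -/
def lv (s : FT T d) : T.VV (d + d + 2) := TR.vec (Fin.append (Fin.append s.a s.x) ![s.b, s.F])

theorem pv_dg (s : FT T d) : s.pv.dg 1 = vd s.fb.fQ 1 := by
  rw [FB.vd_fP]
  unfold pv
  rw [TR.vec_dg_eq]
  have h1 : s.fb.iP = vd s.fb.q 1 ⊔ dg s.fb.z 1 := by
    rw [FB.vd_q]
    unfold FB.iP FB.iZ
    rw [sup_assoc]
  rw [h1]
  apply le_antisymm
  · apply Finset.sup_le
    intro i _
    induction i using Fin.lastCases with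
    | last =>
      rw [Fin.snoc_last, ← dg_mk _ le_rfl, ← s.fb_z]
      exact le_sup_right
    | cast i =>
      rw [Fin.snoc_castSucc, ← dg_mk _ le_rfl, ← s.fb_q]
      exact (dg_le_vd s.fb.q 1 i).trans le_sup_left
  · apply sup_le
    · rw [vd_le]
      intro i
      rw [s.fb_q, dg_mk _ le_rfl]
      have := Finset.le_sup (f := fun i => TR.dg ((Fin.snoc s.q s.z : Fin (d + 1 + 1) → TR T) i) 1)
        (Finset.mem_univ i.castSucc)
      rw [Fin.snoc_castSucc] at this
      exact this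
    · rw [s.fb_z, dg_mk _ le_rfl]
      have := Finset.le_sup (f := fun i => TR.dg ((Fin.snoc s.q s.z : Fin (d + 1 + 1) → TR T) i) 1)
        (Finset.mem_univ (Fin.last (d + 1)))
      rw [Fin.snoc_last] at this
      exact this

end FT

/-- evaluation of a polynomial of bounded degree -/
theorem eval_mon {A : Type*} [CommRing A] {N K : ℕ} (f : MvPolynomial (Fin N) A) (hf : f.totalDegree ≤ K)
    (x : Fin N → A) : MvPolynomial.eval x f = ∑ a : Mon N K, f.coeff a.ex * ∏ i, x i ^ (a.1 i : ℕ) := by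
  classical
  have hinj : Function.Injective (Mon.ex : Mon N K → Fin N →₀ ℕ) := by
    intro a b h
    apply Subtype.ext
    funext i
    apply Fin.ext
    exact DFunLike.congr_fun h i
  rw [MvPolynomial.eval_eq']
  have h1 : ∑ a : Mon N K, f.coeff a.ex * ∏ i, x i ^ (a.1 i : ℕ) =
      ∑ m ∈ Finset.univ.image (Mon.ex : Mon N K → Fin N →₀ ℕ), f.coeff m * ∏ i, x i ^ m i := by
    rw [Finset.sum_image fun a _ b _ h => hinj h]
    rfl
  rw [h1]
  apply Finset.sum_subset
  · intro m hm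
    rw [Finset.mem_image]
    have h2 : (m.sum fun _ e => e) ≤ K := (MvPolynomial.le_totalDegree hm).trans hf
    rw [Finsupp.sum_fintype _ _ (fun _ => rfl)] at h2
    have h3 : ∀ i, m i < K + 1 := fun i => Nat.lt_succ_of_le
      ((Finset.single_le_sum (f := fun i => m i) (fun j _ => Nat.zero_le _) (Finset.mem_univ i)).trans h2)
    refine ⟨⟨fun i => ⟨m i, h3 i⟩, h2⟩, Finset.mem_univ _, ?_⟩
    ext i
    rfl
  · intro m _ hm
    rw [MvPolynomial.notMem_support_iff.mp hm, zero_mul]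

theorem Sub_sum {S : Sp} {M : Type} [Fintype M] {K : M → ℕ → ℝ} (h : ∀ a, S.Sub (K a)) :
    S.Sub (fun k => ∑ a, K a k) := by
  classical
  have key : ∀ s : Finset M, S.Sub (fun k => ∑ a ∈ s, K a k) := by
    intro s
    induction s using Finset.induction_on with
    | empty => simpa using S.Sub_const le_rfl
    | insert a s ha ih =>
      have h1 := (h a).add ih
      simpa [Finset.sum_insert ha] using h1
  exact key Finset.univ

/-- a common bound of finitely many tame functions -/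
theorem exists_bound {S : Sp} {M : Type} [Fintype M] (f : M → TR S) :
    ∃ K : ℕ → ℝ, S.Sub K ∧ ∀ᶠ k in UF, 0 ≤ K k ∧ ∀ a ω, (S.F k).μ ω ≠ 0 → |TR.ev (f a) k ω| ≤ K k := by
  classical
  choose K hK h using fun a => (f a).2
  refine ⟨fun k => ∑ a, K a k, Sub_sum hK, ?_⟩
  have h1 : ∀ᶠ k in UF, ∀ a ∈ (Finset.univ : Finset M), 0 ≤ K a k ∧ ∀ ω, (S.F k).μ ω ≠ 0 → |(f a).1 k ω| ≤ K a k := by
    rw [Filter.eventually_all_finset]
    intro a _
    filter_upwards [(hK a).1, h a] with k h1 h2 using ⟨h1, h2⟩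
  filter_upwards [h1] with k hk
  refine ⟨Finset.sum_nonneg fun a ha => (hk a ha).1, fun a ω hω => ?_⟩
  exact ((hk a (Finset.mem_univ a)).2 ω hω).trans
    (Finset.single_le_sum (f := fun a => K a k) (fun b hb => (hk b hb).1) (Finset.mem_univ a))

/-- FROM AN EXTENSION TO THE SPACE: if `z` is a polynomial of the base point with coefficients in an extension for
which copies given the point and copies given the line agree then the finite leaf statement holds -/
theorem lfF_of {T W : Sp} (p0 : Pj W T) {N K : ℕ} (q : Fin N → TR T) (z : TR T) {mB mX : ℕ} (XB : T.VV mB)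
    (XX : T.VV mX) (C : Mon N K → TR W) (hz : p0.qs (mk z) = ∑ a : Mon N K, mk (C a) * ∏ i, p0.qs (mk (q i)) ^ (a.1 i : ℕ))
    (hB : ∀ a, (two1 (cv p0 XB)).qs (mk (C a)) = (two2 (cv p0 XB)).qs (mk (C a)))
    (hX : ∀ a, (two1 (cv p0 XX)).qs (mk (C a)) = (two2 (cv p0 XX)).qs (mk (C a))) {δ ε : ℝ} (hδ : 0 < δ)
    (hε : 0 < ε) : ∀ᶠ k in UF, LfF (T.F k) K (fun i => TR.ev (q i) k) (TR.ev z k) (Setoid.ker (XB.cellv 1 k))
      (Setoid.ker (XX.cellv 1 k)) (2 ^ (δ * (T.F k).n)) (T.dl (1 - δ) k) ε := by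
  classical
  have hδ2 : 0 < δ / 2 := half_pos hδ
  obtain ⟨KC, hKC, hKC'⟩ := exists_bound C
  obtain ⟨KM, hKM, hKM'⟩ := exists_bound (fun a : Mon N K => ∏ i, q i ^ (a.1 i : ℕ))
  have cl : ∀ {m : ℕ} (X : T.VV m), (∀ a, (two1 (cv p0 X)).qs (mk (C a)) = (two2 (cv p0 X)).qs (mk (C a))) →
      Typ (S := two (cv p0 X)) (fun k w => ∀ a, |TR.ev (C a) k ((two1 (cv p0 X)).π k w) -
        TR.ev (C a) k ((two2 (cv p0 X)).π k w)| ≤ W.dl (1 - δ / 2) k) := by
    intro m X h
    apply typ_forall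
    intro a
    have h1 := h a
    rw [Pj.qs_mk, Pj.qs_mk] at h1
    have h2 := close_of_eq h1 hδ2
    exact h2
  obtain ⟨cB, cB1, cB2, cB3⟩ := exists_cell_fun p0 XB C (1 - δ / 2) (cl XB hB) KC hKC'
  obtain ⟨cX, cX1, cX2, cX3⟩ := exists_cell_fun p0 XX C (1 - δ / 2) (cl XX hX) KC hKC'
  -- the value of the polynomial
  have hz1 : mk (p0.tr z) = mk (∑ a : Mon N K, C a * ∏ i, p0.tr (q i) ^ (a.1 i : ℕ)) := by
    rw [map_sum, ← p0.qs_mk, hz]
    apply Finset.sum_congr rfl
    intro a _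
    rw [map_mul, map_prod]
    rfl
  have hz2 := close_of_eq hz1 hδ2
  -- the event on the space
  set ET : ∀ k, (T.F k).Ω → Prop := fun k ω => (∀ a, |cB k ω a - cX k ω a| ≤ T.dl (1 - δ) k) ∧
    |TR.ev z k ω - ∑ a, cB k ω a * ∏ i, TR.ev (q i) k ω ^ (a.1 i : ℕ)| ≤ T.dl (1 - δ) k with hET
  have hL1 : T.Sub (fun k => 2 + (Fintype.card (Mon N K) : ℝ) * KM k) :=
    (T.Sub_const (by norm_num)).add ((T.Sub_const (Nat.cast_nonneg _)).mul hKM)
  have hTyp : Typ (S := W) (fun k w => ET k (p0.π k w)) := by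
    refine ((cB3.and cX3).and hz2).mono ?_
    filter_upwards [hL1.eventually_le hδ2, hKM'] with k hk hkM w hw hh
    obtain ⟨⟨h1, h2⟩, h3⟩ := hh
    have hdl : W.dl (1 - δ / 2) k = T.dl (1 - δ / 2) k := by
      unfold Sp.dl
      rw [p0.hn k]
    rw [hdl] at h3
    have h1' : ∀ a, |TR.ev (C a) k w - cB k (p0.π k w) a| ≤ T.dl (1 - δ / 2) k := by
      intro a; rw [← hdl]; exact h1 a
    have h2' : ∀ a, |TR.ev (C a) k w - cX k (p0.π k w) a| ≤ T.dl (1 - δ / 2) k := by
      intro a; rw [← hdl]; exact h2 a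
    have hpos := T.dl_pos (1 - δ / 2) k
    have hcardnn : (0 : ℝ) ≤ (Fintype.card (Mon N K) : ℝ) := Nat.cast_nonneg _
    have e1 : T.dl (1 - δ) k = 2 ^ (δ / 2 * (T.F k).n) * T.dl (1 - δ / 2) k := by
      unfold Sp.dl
      rw [← Real.rpow_add (by norm_num : (0 : ℝ) < 2)]
      apply congrArg
      ring
    have e2 : (2 + (Fintype.card (Mon N K) : ℝ) * KM k) * T.dl (1 - δ / 2) k ≤ T.dl (1 - δ) k := by
      rw [e1]
      apply mul_le_mul_of_nonneg_right _ hpos.le
      linarith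
    have e3 : 0 ≤ (Fintype.card (Mon N K) : ℝ) * KM k * T.dl (1 - δ / 2) k :=
      mul_nonneg (mul_nonneg hcardnn hkM.1) hpos.le
    have e4 : (2 + (Fintype.card (Mon N K) : ℝ) * KM k) * T.dl (1 - δ / 2) k =
      2 * T.dl (1 - δ / 2) k + (Fintype.card (Mon N K) : ℝ) * KM k * T.dl (1 - δ / 2) k := by ring
    refine ⟨fun a => ?_, ?_⟩
    · have f1 := abs_le.mp (h1' a)
      have f2 := abs_le.mp (h2' a)
      rw [abs_le]
      constructor <;> linarith [f1.1, f1.2, f2.1, f2.2]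
    · have g1 : TR.ev (p0.tr z) k w = TR.ev z k (p0.π k w) := rfl
      have g2 : TR.ev (∑ a : Mon N K, C a * ∏ i, p0.tr (q i) ^ (a.1 i : ℕ)) k w =
          ∑ a : Mon N K, TR.ev (C a) k w * ∏ i, TR.ev (q i) k (p0.π k w) ^ (a.1 i : ℕ) := by
        rw [← TR.evh_apply, map_sum]
        apply Finset.sum_congr rfl
        intro a _
        rw [map_mul, map_prod]
        rfl
      rw [g1, g2] at h3
      have g3 : ∀ a : Mon N K, |∏ i, TR.ev (q i) k (p0.π k w) ^ (a.1 i : ℕ)| ≤ KM k := by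
        intro a
        have := hkM.2 a (p0.π k w) (p0.supp k w hw)
        rw [← TR.evh_apply, map_prod] at this
        exact this
      have g4 : |∑ a : Mon N K, TR.ev (C a) k w * ∏ i, TR.ev (q i) k (p0.π k w) ^ (a.1 i : ℕ) -
          ∑ a : Mon N K, cB k (p0.π k w) a * ∏ i, TR.ev (q i) k (p0.π k w) ^ (a.1 i : ℕ)| ≤
          (Fintype.card (Mon N K) : ℝ) * KM k * T.dl (1 - δ / 2) k := by
        rw [← Finset.sum_sub_distrib]
        refine (Finset.abs_sum_le_sum_abs _ _).trans ?_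
        calc ∑ a : Mon N K, |TR.ev (C a) k w * ∏ i, TR.ev (q i) k (p0.π k w) ^ (a.1 i : ℕ) -
              cB k (p0.π k w) a * ∏ i, TR.ev (q i) k (p0.π k w) ^ (a.1 i : ℕ)|
            ≤ ∑ _a : Mon N K, T.dl (1 - δ / 2) k * KM k := by
              apply Finset.sum_le_sum
              intro a _
              rw [← sub_mul, abs_mul]
              exact mul_le_mul (h1' a) (g3 a) (abs_nonneg _) hpos.le
          _ = (Fintype.card (Mon N K) : ℝ) * KM k * T.dl (1 - δ / 2) k := by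
              rw [Finset.sum_const, Finset.card_univ, nsmul_eq_mul]
              ring
      have g5 := abs_le.mp h3
      have g6 := abs_le.mp g4
      rw [abs_le]
      constructor <;> linarith [g5.1, g5.2, g6.1, g6.2]
  have hTT : Typ ET := p0.typ_iff.mp hTyp
  have hlim : Tendsto (fun k => (T.F k).pb (fun ω => ¬ ET k ω)) UF (𝓝 0) := hTT
  have hKT : T.Sub KC := by
    refine ⟨hKC.1, ?_⟩
    have h1 : (fun k => Real.logb 2 (KC k + 2) / (T.F k).n) = fun k => Real.logb 2 (KC k + 2) / (W.F k).n := by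
      funext k
      rw [p0.hn k]
    rw [h1]
    exact hKC.2
  filter_upwards [hlim.eventually (gt_mem_nhds hε), cB2, cX2, hKT.eventually_le hδ] with k h1 h2 h3 h4
  refine ⟨cB k, cX k, fun ω ω' a b c e => cB1 k ω ω' a b c e, fun ω ω' a b c e => cX1 k ω ω' a b c e,
    fun ω a => (h2 ω a).trans (by linarith), fun ω a => (h3 ω a).trans (by linarith), h1.le⟩

/-- THE FINITE LEAF STATEMENT (76 (A)-(D1)) for a system over a flat real base -/
theorem finite_leaf {T : Sp} {d : ℕ} (tr : FT T d) (hW : WEC) (hL : LoopQ) (hs : tr.fb.Hyp) (hq : Rl tr.fb.q ⊥)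
    {c : ℝ} (hc : 0 < c) (hu : UnS tr.fb.z (tr.fb.iT ⊔ tr.fb.iY) 0 c) (h3 : tr.fb.T3) {δ ε : ℝ} (hδ : 0 < δ)
    (hε : 0 < ε) : ∀ᶠ k in UF, LfF (T.F k) (d + 2) (fun i => TR.ev (tr.q i) k) (TR.ev tr.z k)
      (Setoid.ker (tr.pv.cellv 1 k)) (Setoid.ker (tr.lv.cellv 1 k)) (2 ^ (δ * (T.F k).n)) (T.dl (1 - δ) k) ε := by
  classical
  set s := tr.fb with hsdef
  obtain ⟨C⟩ := exists_CQ s.fQ d
  have hst0 : IsStar s.fQ C.p := ⟨fun i j a => C.com i j a, fun i0 A => by
    rw [C.p_vd i0 1]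
    exact C.ind A⟩
  have hsp0 : Span s C.p := ⟨fun i => i, h3 C⟩
  have hP0 := spot s hW hL hs hq hc hu h3
  obtain ⟨W, w, ⟨Φ⟩⟩ := hP0 (Fin (d + 1)) inferInstance C.W C.p hst0 hsp0
  have hst := hst0.pull w
  have hsp := hsp0.pull w
  have hX : I s.iX s.iP ⊥ = 0 := hs.s1
  have hfree := Φ.free hP0 hX hq hst hsp
  set p0 : Pj W T := w.comp (C.p 0) with hp0
  -- the coefficients
  set Cf : Mon (d + 1) (d + 2) → QS W := fun a => if a.ex = 0 then Φ.g 0 else Φ.f.coeff a.ex with hCf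
  set CR : Mon (d + 1) (d + 2) → TR W := fun a => rep (Cf a) with hCR
  have hmk : ∀ a, mk (CR a) = Cf a := fun a => mk_rep _
  have hq0 : ∀ i, p0.qs (mk (tr.q i)) = p0.qs (s.q i) := fun i => by rw [hsdef, tr.fb_q]
  have hz0 : p0.qs (mk tr.z) = p0.qs s.z := by rw [hsdef, tr.fb_z]
  -- the expansion of `z`
  have hz : p0.qs (mk tr.z) = ∑ a : Mon (d + 1) (d + 2), mk (CR a) * ∏ i, p0.qs (mk (tr.q i)) ^ (a.1 i : ℕ) := by
    have e1 : p0.qs s.z = Φ.g 0 + MvPolynomial.eval (fun a => p0.qs (s.q a)) Φ.f := by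
      show p0.qs s.z = (p0.qs s.z - MvPolynomial.eval (fun a => p0.qs (s.q a)) Φ.f) + _
      ring
    rw [hz0, e1, eval_mon Φ.f Φ.deg]
    -- the constant term
    have e2 : ∃ a0 : Mon (d + 1) (d + 2), a0.ex = 0 := by
      refine ⟨⟨fun _ => 0, by simp⟩, ?_⟩
      ext i
      rfl
    obtain ⟨a0, ha0⟩ := e2
    have hinj : Function.Injective (Mon.ex : Mon (d + 1) (d + 2) → Fin (d + 1) →₀ ℕ) := by
      intro a b h
      apply Subtype.ext
      funext i
      apply Fin.ext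
      exact DFunLike.congr_fun h i
    rw [← Finset.add_sum_erase _ _ (Finset.mem_univ a0), ← Finset.add_sum_erase _ (fun a : Mon (d + 1) (d + 2) =>
      mk (CR a) * ∏ i, p0.qs (mk (tr.q i)) ^ (a.1 i : ℕ)) (Finset.mem_univ a0)]
    have e3 : ∏ i, p0.qs (mk (tr.q i)) ^ (a0.1 i : ℕ) = 1 := by
      apply Finset.prod_eq_one
      intro i _
      have h1 : (a0.1 i : ℕ) = 0 := DFunLike.congr_fun ha0 i
      rw [h1, pow_zero]
    rw [e3, mul_one, hmk]
    have e4 : Cf a0 = Φ.g 0 := by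
      show (if a0.ex = 0 then Φ.g 0 else Φ.f.coeff a0.ex) = _
      rw [if_pos ha0]
    rw [e4, ha0, Φ.f0, zero_mul, zero_add]
    congr 1
    apply Finset.sum_congr rfl
    intro a ha
    have h1 : a.ex ≠ 0 := by
      intro hc0
      exact (Finset.mem_erase.mp ha).1 (hinj (hc0.trans ha0.symm))
    have h2 : Cf a = Φ.f.coeff a.ex := by
      show (if a.ex = 0 then Φ.g 0 else Φ.f.coeff a.ex) = _
      rw [if_neg h1]
    rw [hmk, h2]
    congr 1
    apply Finset.prod_congr rfl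
    intro i _
    rw [hq0]
  -- copies given the point
  have hB : ∀ a, (two1 (cv p0 tr.pv)).qs (mk (CR a)) = (two2 (cv p0 tr.pv)).qs (mk (CR a)) := by
    set r1 := two1 (cv p0 tr.pv) with hr1
    set r2 := two2 (cv p0 tr.pv) with hr2
    have c0 : ∀ a, r1.qs (p0.qs (s.fQ a)) = r2.qs (p0.qs (s.fQ a)) := by
      intro a
      rcases a with i | i
      · have h1 := two_com p0 tr.pv i.castSucc
        have h2 : TR.cor tr.pv i.castSucc = tr.q i := by
          unfold FT.pv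
          rw [TR.cor_vec, Fin.snoc_castSucc]
        rw [h2, ← tr.fb_q] at h1
        exact h1
      · have h1 := two_com p0 tr.pv (Fin.last (d + 1))
        have h2 : TR.cor tr.pv (Fin.last (d + 1)) = tr.z := by
          unfold FT.pv
          rw [TR.cor_vec, Fin.snoc_last]
        rw [h2, ← tr.fb_z] at h1
        exact h1
    have hc1 : ∀ i a, r1.qs ((w.comp (C.p i)).qs (s.fQ a)) = r2.qs ((w.comp (C.p i)).qs (s.fQ a)) := by
      intro i a
      rw [hst.com i 0 a]
      exact c0 a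
    have hI1 : ∀ i x y, I (r1.map x) (r2.map y) (r1.map ((w.comp (C.p i)).map (vd s.fQ 1))) = 0 := by
      intro i x y
      rw [hst.com_vd i 0, ← tr.pv_dg]
      exact two_ind p0 tr.pv x y
    have hf := Φ.agree hP0 hX hq hst hsp r1 r2 hc1 hI1
    have hfc : ∀ m, r1.qs (Φ.f.coeff m) = r2.qs (Φ.f.coeff m) := by
      intro m
      have := congrArg (MvPolynomial.coeff m) hf
      rwa [MvPolynomial.coeff_map, MvPolynomial.coeff_map] at this
    have hg : r1.qs (Φ.g 0) = r2.qs (Φ.g 0) := by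
      unfold SPot.g
      rw [map_sub, map_sub, qs_eval, qs_eval, hf]
      have e1 : r1.qs ((w.comp (C.p 0)).qs s.z) = r2.qs ((w.comp (C.p 0)).qs s.z) := c0 (Sum.inr ())
      have e2 : (fun a => r1.qs ((w.comp (C.p 0)).qs (s.q a))) = fun a => r2.qs ((w.comp (C.p 0)).qs (s.q a)) := by
        funext a
        exact c0 (Sum.inl a)
      rw [e1, e2]
    intro a
    rw [hmk]
    show r1.qs (if a.ex = 0 then Φ.g 0 else Φ.f.coeff a.ex) = r2.qs (if a.ex = 0 then Φ.g 0 else Φ.f.coeff a.ex)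
    split_ifs
    · exact hg
    · exact hfc _
  -- copies given the line
  have hXX : ∀ a, (two1 (cv p0 tr.lv)).qs (mk (CR a)) = (two2 (cv p0 tr.lv)).qs (mk (CR a)) := by
    set r1 := two1 (cv p0 tr.lv) with hr1
    set r2 := two2 (cv p0 tr.lv) with hr2
    have ca : ∀ j, r1.qs (p0.qs (s.a j)) = r2.qs (p0.qs (s.a j)) := by
      intro j
      have h1 := two_com p0 tr.lv (Fin.castAdd 2 (Fin.castAdd d j))
      have h2 : TR.cor tr.lv (Fin.castAdd 2 (Fin.castAdd d j)) = tr.a j := by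
        unfold FT.lv
        rw [TR.cor_vec, Fin.append_left, Fin.append_left]
      rw [h2] at h1
      exact h1
    have cx : ∀ j, r1.qs (p0.qs (s.x j)) = r2.qs (p0.qs (s.x j)) := by
      intro j
      have h1 := two_com p0 tr.lv (Fin.castAdd 2 (Fin.natAdd d j))
      have h2 : TR.cor tr.lv (Fin.castAdd 2 (Fin.natAdd d j)) = tr.x j := by
        unfold FT.lv
        rw [TR.cor_vec, Fin.append_left, Fin.append_right]
      rw [h2] at h1
      exact h1
    have cb : r1.qs (p0.qs s.b) = r2.qs (p0.qs s.b) := by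
      have h1 := two_com p0 tr.lv (Fin.natAdd (d + d) 0)
      have h2 : TR.cor tr.lv (Fin.natAdd (d + d) 0) = tr.b := by
        unfold FT.lv
        rw [TR.cor_vec, Fin.append_right]
        rfl
      rw [h2] at h1
      exact h1
    have cF : r1.qs (p0.qs s.F) = r2.qs (p0.qs s.F) := by
      have h1 := two_com p0 tr.lv (Fin.natAdd (d + d) 1)
      have h2 : TR.cor tr.lv (Fin.natAdd (d + d) 1) = tr.F := by
        unfold FT.lv
        rw [TR.cor_vec, Fin.append_right]
        rfl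
      rw [h2] at h1
      exact h1
    obtain ⟨hf, hg⟩ := Φ.line_agree hs hX hq hst hsp hfree 0 (a0 := 0) (c := c) zero_lt_one hc
      (by rw [sup_comm]; exact hu) r1 r2 ca cx cb cF
    have hfc : ∀ m, r1.qs (Φ.f.coeff m) = r2.qs (Φ.f.coeff m) := by
      intro m
      have := congrArg (MvPolynomial.coeff m) hf
      rwa [MvPolynomial.coeff_map, MvPolynomial.coeff_map] at this
    intro a
    rw [hmk]
    show r1.qs (if a.ex = 0 then Φ.g 0 else Φ.f.coeff a.ex) = r2.qs (if a.ex = 0 then Φ.g 0 else Φ.f.coeff a.ex)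
    split_ifs
    · exact hg
    · exact hfc _
  exact lfF_of p0 tr.q tr.z tr.pv tr.lv CR hz hB hXX hδ hε

end

end Pool.Agent.Helper99.EC
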