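import Pool.Agent.Helper38.NS.LeafC

/-! Polynomial identities which hold at all points of the ring hold in all extensions. -/

set_option autoImplicit false

namespace Pool.Agent.Helper99.EC

open Pool.Agent.Helper31.EC QS
open Pool.Agent.Helper38.NS

noncomputable section

section ring

variable {A : Type*} [CommRing A]

theorem poly_eq_zero_nat (hA : ∀ n : ℕ, n ≠ 0 → IsUnit (n : A)) (P : Polynomial A)
    (h : ∀ j : ℕ, P.eval (j : A) = 0) : P = 0 := by
  classical
  set n := P.natDegree + 1 with hn
  set V : Matrix (Fin n) (Fin n) A := Matrix.vandermonde fun i : Fin n => ((i : ℕ) : A) with hV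
  have hu : IsUnit V.det := by
    rw [hV, Matrix.det_vandermonde]
    apply isUnit_prod
    intro i _
    apply isUnit_prod
    intro j hj
    have hij' : i < j := Finset.mem_Ioi.mp hj
    have hij : (i : ℕ) < j := hij'
    have h1 : ((j : ℕ) : A) - ((i : ℕ) : A) = (((j : ℕ) - (i : ℕ) : ℕ) : A) := by
      rw [Nat.cast_sub hij.le]
    rw [h1]
    exact hA _ (Nat.sub_ne_zero_of_lt hij)
  have h1 : V.mulVec (fun a : Fin n => P.coeff a) = 0 := by
    funext i
    have h2 := h i
    rw [Polynomial.eval_eq_sum_range' (Nat.lt_succ_self P.natDegree),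
      ← Fin.sum_univ_eq_sum_range (fun a => P.coeff a * ((i : ℕ) : A) ^ a) (P.natDegree + 1)] at h2
    unfold Matrix.mulVec dotProduct
    refine (Finset.sum_congr rfl fun a _ => ?_).trans h2
    have h3 : V i a = ((i : ℕ) : A) ^ (a : ℕ) := by rw [hV, Matrix.vandermonde_apply]
    show V i a * P.coeff a = P.coeff a * ((i : ℕ) : A) ^ (a : ℕ)
    rw [h3, mul_comm]
  have h2 : (fun a : Fin n => P.coeff a) = 0 := by
    have h3 := congrArg (fun u => (V⁻¹).mulVec u) h1
    simp only [Matrix.mulVec_mulVec, Matrix.nonsing_inv_mul _ hu, Matrix.one_mulVec, Matrix.mulVec_zero] at h3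
    exact h3
  ext a
  rw [Polynomial.coeff_zero]
  by_cases ha : a < n
  · exact congrFun h2 ⟨a, ha⟩
  · exact Polynomial.coeff_eq_zero_of_natDegree_lt (by omega)

theorem mv_eq_zero_nat (hA : ∀ n : ℕ, n ≠ 0 → IsUnit (n : A)) : ∀ (n : ℕ) (P : MvPolynomial (Fin n) A),
    (∀ x : Fin n → A, MvPolynomial.eval x P = 0) → P = 0 := by
  intro n
  induction n with
  | zero =>
    intro P h
    have h1 := h (fun i => i.elim0)
    rw [MvPolynomial.eq_C_of_isEmpty P] at h1 ⊢
    rw [MvPolynomial.eval_C] at h1
    rw [h1, map_zero]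
  | succ n ih =>
    intro P h
    set F := MvPolynomial.finSuccEquiv A n P with hF
    have h1 : ∀ a, F.coeff a = 0 := by
      intro a
      apply ih
      intro x
      have h2 : Polynomial.map (MvPolynomial.eval x) F = 0 := by
        apply poly_eq_zero_nat hA
        intro j
        have h3 := h (Fin.cons (j : A) x)
        rw [MvPolynomial.eval_eq_eval_mv_eval'] at h3
        exact h3
      have h3 := congrArg (fun Q => Q.coeff a) h2
      simp only [Polynomial.coeff_map, Polynomial.coeff_zero] at h3
      exact h3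
    have h2 : F = 0 := by
      ext a : 1
      rw [h1 a, Polynomial.coeff_zero]
    rw [hF] at h2
    exact (map_eq_zero_iff _ (MvPolynomial.finSuccEquiv A n).injective).mp h2

/-- the polynomial of the identity `f (x + s v) - f x = s P x` in the variables `(s, x)` -/
def thp {n : ℕ} (f P : MvPolynomial (Fin n) A) (v : Fin n → A) : MvPolynomial (Fin (n + 1)) A :=
  MvPolynomial.bind₁ (fun j => MvPolynomial.X j.succ + MvPolynomial.X 0 * MvPolynomial.C (v j)) f -
    MvPolynomial.rename Fin.succ f - MvPolynomial.X 0 * MvPolynomial.rename Fin.succ P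

theorem eval_thp {n : ℕ} (f P : MvPolynomial (Fin n) A) (v : Fin n → A) (y : Fin (n + 1) → A) :
    MvPolynomial.eval y (thp f P v) = MvPolynomial.eval (fun j => y j.succ + y 0 * v j) f -
      MvPolynomial.eval (fun j => y j.succ) f - y 0 * MvPolynomial.eval (fun j => y j.succ) P := by
  have h1 : MvPolynomial.eval y (MvPolynomial.bind₁ (fun j => MvPolynomial.X j.succ +
      MvPolynomial.X 0 * MvPolynomial.C (v j)) f) = MvPolynomial.eval (fun j => y j.succ + y 0 * v j) f := by
    have := MvPolynomial.eval₂Hom_bind₁ (RingHom.id A) y (fun j => MvPolynomial.X j.succ +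
      MvPolynomial.X 0 * MvPolynomial.C (v j)) f
    have h2 : ∀ (σ : Type) (w : σ → A) (g : MvPolynomial σ A),
        MvPolynomial.eval₂Hom (RingHom.id A) w g = MvPolynomial.eval w g := fun _ _ _ => rfl
    rw [h2, h2] at this
    rw [this]
    congr 2
    funext j
    rw [h2]
    simp
  unfold thp
  rw [map_sub, map_sub, map_mul, h1, MvPolynomial.eval_rename, MvPolynomial.eval_rename, MvPolynomial.eval_X]
  rfl

theorem map_thp {B : Type*} [CommRing B] (φ : A →+* B) {n : ℕ} (f P : MvPolynomial (Fin n) A) (v : Fin n → A) :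
    MvPolynomial.map φ (thp f P v) = thp (MvPolynomial.map φ f) (MvPolynomial.map φ P) (fun j => φ (v j)) := by
  unfold thp
  rw [map_sub, map_sub, map_mul, MvPolynomial.map_bind₁, MvPolynomial.map_rename, MvPolynomial.map_rename,
    MvPolynomial.map_X]
  congr 3
  congr 1
  funext j
  rw [map_add, map_mul, MvPolynomial.map_X, MvPolynomial.map_X, MvPolynomial.map_C]

end ring

variable {S : Sp}

/-- a constant -/
def cst (S : Sp) (c : ℝ) : TR S := ⟨fun _ _ => c, fun _ => |c|, S.Sub_const (abs_nonneg c),
  Filter.Eventually.of_forall fun _ _ _ => le_rfl⟩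

/-- integers are units -/
theorem isUnit_nat (n : ℕ) (hn : n ≠ 0) : IsUnit (n : QS S) := by
  have h1 : (n : QS S) = mk (cst S n) := by
    rw [← map_natCast mk n]
    congr 1
  have h2 : mk (cst S (n : ℝ)⁻¹) * mk (cst S n) = 1 := by
    rw [← map_mul, ← map_one mk]
    congr 1
    apply Subtype.ext
    funext k ω
    show (n : ℝ)⁻¹ * n = 1
    exact inv_mul_cancel₀ (Nat.cast_ne_zero.mpr hn)
  rw [h1]
  exact IsUnit.of_mul_eq_one _ (by rw [mul_comm]; exact h2)

/-- potential identities pass to extensions -/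
theorem pot_ext {W R : Sp} (r : Pj R W) {D : ℕ} {f P : MvPolynomial (Fin D) (QS W)} {v : Fin D → QS W}
    (h : Pot f v P) : Pot (MvPolynomial.map r.qs f) (fun j => r.qs (v j)) (MvPolynomial.map r.qs P) := by
  have h1 : thp f P v = 0 := by
    apply mv_eq_zero_nat (fun n hn => isUnit_nat n hn)
    intro y
    rw [eval_thp, h (fun j => y j.succ) (y 0), sub_self]
  have h2 := congrArg (MvPolynomial.map r.qs) h1
  rw [map_thp, map_zero] at h2
  intro x s
  have h3 := congrArg (MvPolynomial.eval (Fin.cons s x : Fin (D + 1) → QS R)) h2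
  rw [eval_thp, map_zero] at h3
  simp only [Fin.cons_succ, Fin.cons_zero] at h3
  exact sub_eq_zero.mp h3

end

end Pool.Agent.Helper99.EC
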