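import Pool.Agent.Helper99.EC.Ext
import Pool.Agent.Helper99.EC.Leaf

/-! Exact entropy calculus: every spanning star has a potential (from theorem W, the loop theorem and (T3)). -/

set_option autoImplicit false

namespace Pool.Agent.Helper99.EC

open Pool.Agent.Helper31.EC QS
open Pool.Agent.Helper38.NS Pool.Agent.Helper38.NS.FB

noncomputable section

variable {T : Sp} {d : ℕ}

/-- potentials of bushes -/
theorem exists_pot (s : FB T d) (hW : WEC) (hL : LoopQ) (hs : s.Hyp) (hq : Rl s.q ⊥) {c : ℝ}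
    (hc : 0 < c) (hu : UnS s.z (s.iT ⊔ s.iY) 0 c) (h3 : s.T3) {N : ℕ} (hN : d ≤ N) (C : CQ T s.fQ N) :
    ∃ (W : Sp) (p : Pj W C.W) (f : MvPolynomial (Fin (d + 1)) (QS W))
      (P : Fin (N + 1) → MvPolynomial (Fin (d + 1)) (QS W)),
      f ∈ PK (p.map (vd (dirs C) 1)) ∧ (∀ i, P i ∈ PK (p.map (vd (dirs C) 1))) ∧ f.totalDegree ≤ d + 2 ∧
      f.coeff 0 = 0 ∧ (∀ i, MvPolynomial.eval (fun j => p.qs (pt C j)) (P i) = p.qs (Fs C i)) ∧
      ∀ i, Pot f (fun j => p.qs ((C.p i).qs (s.v j))) (P i) := by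
  classical
  -- sub-bushes
  set z0 : Fin (N + 1) := 0 with hz0
  set g : Fin (N + 1) → Fin (d + 1) → Fin (N + 1) := fun i k =>
    Equiv.swap z0 i (Fin.castLE (Nat.succ_le_succ hN) k) with hg
  have hgi : ∀ i, Function.Injective (g i) := by
    intro i a b h
    exact Fin.castLE_injective (Nat.succ_le_succ hN) ((Equiv.swap z0 i).injective h)
  have hg0 : ∀ i, g i 0 = i := by
    intro i
    show Equiv.swap z0 i (Fin.castLE (Nat.succ_le_succ hN) 0) = i
    have : Fin.castLE (Nat.succ_le_succ hN) (0 : Fin (d + 1)) = z0 := rfl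
    rw [this, Equiv.swap_apply_left]
  obtain ⟨W, p, hQ⟩ := ext_all (S := C.W) (Finset.univ : Finset (Fin (N + 1)))
    (fun i W p => ∃ P : MvPolynomial (Fin (d + 1)) (QS W), P ∈ PK (p.map (vd (dirs C) 1)) ∧ P.totalDegree ≤ d + 1 ∧
      p.qs (Fs C i) = MvPolynomial.eval (fun j => p.qs (pt C j)) P)
    (by
      rintro i W p W' q ⟨P, h1, h2, h3'⟩
      refine ⟨MvPolynomial.map q.qs P, ?_, (totalDegree_map_le _ _).trans h2, ?_⟩
      · rw [Pj.comp_map]
        exact map_PK q h1
      · rw [Pj.comp_qs, h3', qs_eval]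
        exact congrArg (fun g => MvPolynomial.eval g _) (funext fun j => (Pj.comp_qs _ _ _).symm))
    (by
      intro i W p
      obtain ⟨W', q, k⟩ := slopes hW hs hq hc (by rw [sup_comm]; exact hu) (subCQ C (g i) (hgi i))
        (h3 _) W p
      obtain ⟨P, b1, b2, b3⟩ := k 0
      refine ⟨W', q, P, ?_, b2, ?_⟩
      · exact PK_mono ((q.comp p).map_mono (dirs_sub C (g i) (hgi i))) b1
      · have e1 : Fs (subCQ C (g i) (hgi i)) 0 = Fs C i := by
          show (C.p (g i 0)).qs s.F = (C.p i).qs s.F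
          rw [hg0]
        rw [e1] at b3
        refine Eq.trans b3 ?_
        exact congrArg (fun g => MvPolynomial.eval g P) (funext fun j => congrArg _
          (pt_sub C (g i) (hgi i) j)))
  have hQ' := fun i => hQ i (Finset.mem_univ i)
  choose P hPG' hPd hPF using hQ'
  obtain ⟨G, hG⟩ : ∃ G : Fin (N + 1) × Fin d → QS W, G = fun a => p.qs (dirs C a) :=
    ⟨_, rfl⟩
  obtain ⟨v, hv⟩ : ∃ v : Fin (N + 1) → Fin (d + 1) → QS W,
      v = fun i j => p.qs ((C.p i).qs (s.v j)) := ⟨_, rfl⟩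
  obtain ⟨q', hq'⟩ : ∃ q' : Fin (d + 1) → QS W, q' = fun j => p.qs (pt C j) := ⟨_, rfl⟩
  obtain ⟨z', hz'⟩ : ∃ z', z' = p.qs ((C.p 0).qs s.z) := ⟨_, rfl⟩
  have hGd : vd G 1 = p.map (vd (dirs C) 1) := by rw [hG, p.qs_vd]
  have hv0 : ∀ i, v i 0 = 1 := by
    intro i
    rw [hv]
    show p.qs ((C.p i).qs (s.v 0)) = 1
    rw [v_zero, map_one, map_one]
  have hvs : ∀ i (k : Fin d), v i k.succ = p.qs (dirs C (i, k)) := by
    intro i k
    rw [hv]
    rfl
  have hvk : ∀ i j, dg (v i j) 1 ≤ vd G 1 := by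
    intro i j
    induction j using Fin.cases with
    | zero =>
      rw [hv0]
      exact (Kn W 1 le_rfl _).one_mem
    | succ k =>
      rw [hvs, hG]
      exact dg_le_vd (fun a => p.qs (dirs C a)) 1 (i, k)
  have hqR : Rl q' (vd G 1) := by
    rw [hGd, hq']
    exact (q_real C hs hq).pull p
  have hPG : ∀ i, P i ∈ PK (vd G 1) := by
    intro i
    rw [hGd]
    exact hPG' i
  have hFe : ∀ i, p.qs (Fs C i) = MvPolynomial.eval q' (P i) := by
    intro i
    rw [hPF i, hq']
  -- base lines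
  have hak : ∀ i, q' 0 - q' 0 * v i 0 = 0 := by
    intro i
    rw [hv0, mul_one, sub_self]
  have has : ∀ i (k : Fin d), q' k.succ - q' 0 * v i k.succ = p.qs ((C.p i).qs (s.a k)) := by
    intro i k
    rw [a_eq, map_sub, map_mul, hvs, hq']
    rfl
  have hLle : ∀ i, vd (fun k => q' k - q' 0 * v i k) 1 ≤ p.map ((C.p i).map s.iL) := by
    intro i
    rw [vd_le]
    intro k
    induction k using Fin.cases with
    | zero =>
      rw [hak]
      exact (Kn W 1 le_rfl _).zero_mem
    | succ k =>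
      rw [has, p.qs_dg, (C.p i).qs_dg]
      exact p.map_mono ((C.p i).map_mono ((dg_le_vd s.a 1 k).trans le_sup_left))
  have hLge : ∀ i, p.map ((C.p i).map s.iL) ≤ vd (fun k => q' k - q' 0 * v i k) 1 ⊔ vd G 1 := by
    intro i
    unfold iL
    rw [(C.p i).map_sup, p.map_sup]
    apply sup_le
    · refine le_trans ?_ le_sup_left
      rw [← (C.p i).qs_vd, ← p.qs_vd, vd_le]
      intro k
      rw [← has]
      exact dg_le_vd (fun k => q' k - q' 0 * v i k) 1 k.succ
    · refine le_trans ?_ le_sup_right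
      rw [hGd]
      exact p.map_mono (iX_le_dirs C i)
  have hb : ∀ i, z' - q' 0 * MvPolynomial.eval q' (P i) = p.qs ((C.p i).qs s.b) := by
    intro i
    rw [b_eq, map_sub, map_mul, hFe, hz', hq']
  have hFk : ∀ i, dg (p.qs (Fs C i)) 1 ≤ p.map ((C.p i).map s.iL) := by
    intro i
    unfold Fs
    rw [p.qs_dg, (C.p i).qs_dg]
    exact p.map_mono ((C.p i).map_mono hs.hF)
  have htime : ∀ i, Helper31.EC.h (dg (q' 0) 1) (vd (fun k => q' k - q' 0 * v i k) 1 ⊔
      dg (z' - q' 0 * MvPolynomial.eval q' (P i)) 1 ⊔ vd G 1) = 1 := by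
    intro i
    apply le_antisymm (h_dg1 _ _)
    have h1 := p.h_map ((C.p i).map s.iT) ((C.p i).map (s.iL ⊔ s.iB) ⊔ vd (dirs C) 1)
    rw [time_real C hs i, p.map_sup, ← hGd] at h1
    have h2 : dg (q' 0) 1 = p.map ((C.p i).map s.iT) := by
      rw [hq']
      show dg (p.qs (pt C 0)) 1 = _
      rw [← pt_eq C i, p.qs_dg, (C.p i).qs_dg]
      rfl
    rw [h2]
    refine h1.ge.trans ?_
    apply h_anti
    rw [(C.p i).map_sup, p.map_sup, hb i, p.qs_dg, (C.p i).qs_dg]
    exact sup_le_sup_right (sup_le_sup_right (hLle i) _) _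
  have hun : UnS z' (vd q' 1) 0 c := by
    have h1 := hu.pull (p.comp (C.p 0))
    rw [Pj.comp_qs, Pj.comp_map, ← vd_q, ← (C.p 0).qs_vd, ← p.qs_vd, ← hz'] at h1
    rw [hq']
    exact h1
  have hdet : IsUnit (Matrix.det (Matrix.of fun i j : Fin (d + 1) =>
      v (Fin.castLE (Nat.succ_le_succ hN) i) j)) := by
    rw [hv]
    exact det_map p (Matrix.of fun i j => (C.p (Fin.castLE (Nat.succ_le_succ hN) i)).qs (s.v j))
      (h3 (subCQ C (fun i => Fin.castLE (Nat.succ_le_succ hN) i) (Fin.castLE_injective _)))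
  obtain ⟨f, hf, hf0, hpot⟩ := hL W _ inferInstance G d N q' z' v P hN c hc hqR
    hvk hPG hv0 hdet htime (fun i => by rw [← hFe]; exact (hFk i).trans (hLge i)) hun
  obtain ⟨m1, m1d⟩ := pot_known (A := vd G 1) (B := vd G 1) le_rfl
    f hf hf0 (Matrix.of fun i j : Fin (d + 1) => v (Fin.castLE (Nat.succ_le_succ hN) i) j)
    (fun i j => hvk _ j) hdet (fun i => P (Fin.castLE (Nat.succ_le_succ hN) i))
    (fun i => hPG _) (d + 1) (fun i => hPd _) (fun i => hpot _) q' hqR
  refine ⟨W, p, f, P, ?_, ?_, m1d, hf0, ?_, ?_⟩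
  · rw [← hGd]; exact hf
  · intro i; rw [← hGd]; exact hPG i
  · intro i
    rw [hFe i, hq']
  · intro i
    have := hpot i
    rw [hv] at this
    exact this

/-- THE STATEMENT OF SECTIONS 2-5 HOLDS -/
theorem spot (s : FB T d) (hW : WEC) (hL : LoopQ) (hs : s.Hyp) (hq : Rl s.q ⊥) {c : ℝ}
    (hc : 0 < c) (hu : UnS s.z (s.iT ⊔ s.iY) 0 c) (h3 : s.T3) : SPOT s (d + 2) := by
  classical
  intro ι _ W p hst hsp
  obtain ⟨e, he⟩ := hsp
  have hinj : Function.Injective e := by
    intro i j hij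
    by_contra hne
    have h1 : (Matrix.of fun i a => (p (e i)).qs (s.v a)).det = 0 := by
      apply Matrix.det_zero_of_row_eq hne
      funext a
      show (p (e i)).qs (s.v a) = (p (e j)).qs (s.v a)
      rw [hij]
    rw [h1] at he
    exact not_isUnit_zero he
  have hcard : d + 1 ≤ Fintype.card ι := by
    have := Fintype.card_le_of_injective e hinj
    rwa [Fintype.card_fin] at this
  obtain ⟨N, hN⟩ : ∃ N, Fintype.card ι = N + 1 := ⟨Fintype.card ι - 1, by omega⟩
  have hdN : d ≤ N := by omega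
  obtain ⟨σ⟩ : Nonempty (Fin (N + 1) ≃ ι) := ⟨(Fintype.equivFinOfCardEq hN).symm⟩
  have hsup : ∀ (R : Sp) (g : ι → R.L), (Finset.univ.sup fun k => g (σ k)) = Finset.univ.sup g := by
    intro R g
    apply le_antisymm
    · apply Finset.sup_le
      intro k _
      exact Finset.le_sup (f := g) (Finset.mem_univ (σ k))
    · apply Finset.sup_le
      intro i _
      have := Finset.le_sup (f := fun k => g (σ k)) (Finset.mem_univ (σ.symm i))
      simp only [Equiv.apply_symm_apply] at this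
      exact this
  let C : CQ T s.fQ N :=
    { W := W
      p := fun k => p (σ k)
      com := fun i j a => hst.com (σ i) (σ j) a
      ind := fun A => by
        have h1 := hst.ind (σ 0) (fun i => A (σ.symm i))
        rw [← hsup W] at h1
        simp only [Equiv.symm_apply_apply] at h1
        rw [h1]
        exact (Equiv.sum_comp σ.symm fun k => h (A k) (vd s.fQ 1)) }
  obtain ⟨W', w, f, P, h1, h2, h3', h4, h5, h6⟩ := exists_pot s hW hL hs hq hc hu h3 hdN C
  have hU : w.map (vd (dirs C) 1) = Finset.univ.sup fun i => (w.comp (p i)).map s.iX := by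
    rw [vd_dirs, w.map_finsup, ← hsup W']
    apply Finset.sup_congr rfl
    intro k _
    exact (Pj.comp_map _ _ _).symm
  rw [hU] at h1
  refine ⟨W', w, ⟨{ f := f, P := fun i => P (σ.symm i), hf := h1, hP := ?_, deg := h3', f0 := h4, ev := ?_, dv := ?_ }⟩⟩
  · intro i
    have := h2 (σ.symm i)
    rw [hU] at this
    exact this
  · intro i
    have e1 := h5 (σ.symm i)
    have e2 : Fs C (σ.symm i) = (p i).qs s.F := by
      show (p (σ (σ.symm i))).qs s.F = _
      rw [Equiv.apply_symm_apply]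
    rw [e2] at e1
    simp only [Pj.comp_qs]
    rw [← e1]
    congr 2
    funext a
    congr 1
    exact hst.com i (σ 0) (Sum.inl a)
  · intro i R r y c'
    have e1 := pot_ext r (h6 (σ.symm i)) y c'
    have e2 : ∀ j, w.qs ((C.p (σ.symm i)).qs (s.v j)) = (w.comp (p i)).qs (s.v j) := by
      intro j
      show w.qs ((p (σ (σ.symm i))).qs (s.v j)) = _
      rw [Equiv.apply_symm_apply, Pj.comp_qs]
    simp only [e2] at e1
    exact e1

end

end Pool.Agent.Helper99.EC
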