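import Pool.Agent.Helper99.EC.Star
import Pool.Agent.Helper38.NS.LeafC
import Pool.Agent.Helper38.NS.T3A

/-! Exact entropy calculus: the potential of a star (polynomial leaf function); two potentials of stars with the same
point agree, the potential has free coefficients (76 (A)). -/

set_option autoImplicit false

namespace Pool.Agent.Helper38.NS.FB

open Pool.Agent.Helper31.EC QS

noncomputable section

variable {S : Sp} {d : ℕ}

theorem q_eq (s : FB S d) (i : Fin (d + 1)) : s.q i = s.av i + s.t * s.v i := by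
  induction i using Fin.cases with
  | zero => show s.t = 0 + s.t * 1; ring
  | succ i => rfl

/-- information of the point -/
def iP (s : FB S d) : S.L := s.iT ⊔ (s.iY ⊔ s.iZ)

theorem vd_fP (s : FB S d) : vd s.fQ 1 = s.iP := s.vd_fQ

theorem vd_v (s : FB S d) : vd s.v 1 = s.iX := by
  apply le_antisymm
  · rw [vd_le]
    intro i
    induction i using Fin.cases with
    | zero => exact (Kn S 1 le_rfl s.iX).one_mem
    | succ i => exact dg_le_vd s.x 1 i
  · unfold iX
    rw [vd_le]
    intro i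
    exact dg_le_vd s.v 1 i.succ

theorem vd_q_le (s : FB S d) : vd s.q 1 ≤ s.iP := by
  rw [vd_q]
  unfold iP
  order

end

end Pool.Agent.Helper38.NS.FB

namespace Pool.Agent.Helper99.EC

open Pool.Agent.Helper31.EC QS
open Pool.Agent.Helper38.NS

noncomputable section

/-- a polynomial which is invariant under translations in the directions of a basis is constant -/
theorem eval_inv {A : Type*} [CommRing A] {n : ℕ} (h : MvPolynomial (Fin n) A) (v : Fin n → Fin n → A)
    (hu : IsUnit (Matrix.of v).det)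
    (hh : ∀ i (y : Fin n → A) (s : A), MvPolynomial.eval (fun a => y a + s * v i a) h = MvPolynomial.eval y h)
    (y : Fin n → A) : MvPolynomial.eval y h = h.coeff 0 := by
  classical
  set s : Fin n → A := Matrix.vecMul (fun a => - y a) (Matrix.of v)⁻¹ with hs
  have e1 : Matrix.vecMul s (Matrix.of v) = fun a => - y a := by
    rw [hs, Matrix.vecMul_vecMul, Matrix.nonsing_inv_mul _ hu, Matrix.vecMul_one]
  have e2 : ∀ t : Finset (Fin n), MvPolynomial.eval (fun a => y a + ∑ i ∈ t, s i * v i a) h = MvPolynomial.eval y h := by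
    intro t
    induction t using Finset.induction_on with
    | empty => simp
    | insert i t hi ih =>
      rw [← ih, ← hh i (fun a => y a + ∑ i ∈ t, s i * v i a) (s i)]
      congr 2
      funext a
      rw [Finset.sum_insert hi]
      ring
  have e3 := e2 Finset.univ
  have e4 : (fun a => y a + ∑ i, s i * v i a) = fun _ => 0 := by
    funext a
    have e5 := congrFun e1 a
    unfold Matrix.vecMul dotProduct at e5
    have e6 : ∑ i, s i * v i a = - y a := e5
    rw [e6]
    ring
  rw [e4] at e3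
  rw [← e3]
  have e5 : MvPolynomial.eval (fun _ : Fin n => (0 : A)) h = MvPolynomial.constantCoeff h := by
    have := MvPolynomial.eval_zero (R := A) (σ := Fin n)
    exact congrArg (fun g => g h) this
  rw [e5]
  rfl

variable {T : Sp} {d : ℕ}

/-- potential of a star: a polynomial `f` of degree at most `K` with coefficients known to the directions whose
derivative in the direction of every line is the slope of the line -/
structure SPot (s : FB T d) (K : ℕ) {ι : Type} [Fintype ι] {W : Sp} (p : ι → Pj W T) where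
  f : MvPolynomial (Fin (d + 1)) (QS W)
  P : ι → MvPolynomial (Fin (d + 1)) (QS W)
  hf : f ∈ PK (Finset.univ.sup fun i => (p i).map s.iX)
  hP : ∀ i, P i ∈ PK (Finset.univ.sup fun i => (p i).map s.iX)
  deg : f.totalDegree ≤ K
  f0 : f.coeff 0 = 0
  ev : ∀ i, MvPolynomial.eval (fun a => (p i).qs (s.q a)) (P i) = (p i).qs s.F
  dv : ∀ (i : ι) (R : Sp) (r : Pj R W) (y : Fin (d + 1) → QS R) (c : QS R),
    MvPolynomial.eval (fun a => y a + c * r.qs ((p i).qs (s.v a))) (MvPolynomial.map r.qs f) -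
      MvPolynomial.eval y (MvPolynomial.map r.qs f) = c * MvPolynomial.eval y (MvPolynomial.map r.qs (P i))

/-- spanning stars -/
def Span (s : FB T d) {ι : Type} {W : Sp} (p : ι → Pj W T) : Prop :=
  ∃ e : Fin (d + 1) → ι, IsUnit (Matrix.of fun i a => (p (e i)).qs (s.v a)).det

theorem Span.pull {s : FB T d} {ι : Type} {W : Sp} {p : ι → Pj W T} (h : Span s p) {R : Sp} (r : Pj R W) :
    Span s (fun i => r.comp (p i)) := by
  obtain ⟨e, he⟩ := h
  refine ⟨e, ?_⟩
  have h1 : (Matrix.of fun i a => (r.comp (p (e i))).qs (s.v a)) =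
      (Matrix.of fun i a => (p (e i)).qs (s.v a)).map r.qs := by
    ext i a
    show (r.comp (p (e i))).qs (s.v a) = r.qs ((p (e i)).qs (s.v a))
    rw [Pj.comp_qs]
  rw [h1]
  have h2 := RingHom.map_det r.qs (Matrix.of fun i a => (p (e i)).qs (s.v a))
  rw [RingHom.mapMatrix_apply] at h2
  rw [← h2]
  exact he.map r.qs

/-- THE STATEMENT OF SECTIONS 2-5 of ns_notes_50b: every spanning star has, in an extension, a potential -/
def SPOT (s : FB T d) (K : ℕ) : Prop :=
  ∀ (ι : Type) (_ : Fintype ι) (W : Sp) (p : ι → Pj W T), IsStar s.fQ p → Span s p →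
    ∃ (W' : Sp) (w : Pj W' W), Nonempty (SPot s K (fun i => w.comp (p i)))

namespace SPot

variable {s : FB T d} {K : ℕ} {ι : Type} [Fintype ι] {W : Sp} {p : ι → Pj W T}

/-- pullback -/
def pull (Φ : SPot s K p) {R : Sp} (r : Pj R W) : SPot s K (fun i => r.comp (p i)) where
  f := MvPolynomial.map r.qs Φ.f
  P i := MvPolynomial.map r.qs (Φ.P i)
  hf := by
    have h1 := map_PK r Φ.hf
    rw [r.map_finsup] at h1
    simp only [Pj.comp_map]
    exact h1
  hP i := by
    have h1 := map_PK r (Φ.hP i)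
    rw [r.map_finsup] at h1
    simp only [Pj.comp_map]
    exact h1
  deg := (totalDegree_map_le _ _).trans Φ.deg
  f0 := by rw [MvPolynomial.coeff_map, Φ.f0, map_zero]
  ev i := by
    have h1 := congrArg r.qs (Φ.ev i)
    rw [qs_eval] at h1
    simp only [Pj.comp_qs]
    exact h1
  dv i R' r' y c := by
    have h1 := Φ.dv i R' (r'.comp r) y c
    simp only [Pj.comp_qs] at h1 ⊢
    rw [MvPolynomial.map_map, MvPolynomial.map_map]
    have h2 : (r'.qs).comp r.qs = (r'.comp r).qs := by
      ext x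
      rw [RingHom.comp_apply, Pj.comp_qs]
    rw [h2]
    exact h1

/-- the two forms of the derivative on the space itself -/
theorem dv' (Φ : SPot s K p) (i : ι) (y : Fin (d + 1) → QS W) (c : QS W) :
    MvPolynomial.eval (fun a => y a + c * (p i).qs (s.v a)) Φ.f - MvPolynomial.eval y Φ.f =
      c * MvPolynomial.eval y (Φ.P i) := by
  have h1 := Φ.dv i W (Pj.id W) y c
  simp only [Pj.id_qs] at h1
  have h2 : (Pj.id W).qs = RingHom.id (QS W) := by
    ext x
    rw [Pj.id_qs, RingHom.id_apply]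
  rw [h2, MvPolynomial.map_id, MvPolynomial.map_id] at h1
  exact h1

/-- the point is real over the directions -/
theorem rl_point (hs : IsStar s.fQ p) (hX : I s.iX s.iP ⊥ = 0) (hq : Rl s.q ⊥) (i0 : ι) :
    Rl (fun a => (p i0).qs (s.q a)) (Finset.univ.sup fun i => (p i).map s.iX) := by
  have h1 := hs.I_free i0 (fun _ => s.iX) (fun _ => by rw [FB.vd_fP]; exact hX)
  rw [FB.vd_fP] at h1
  have h2 := hq.pull (p i0)
  rw [Pj.map_bot] at h2
  unfold Rl at h2 ⊢
  have h3 : I (Finset.univ.sup fun i => (p i).map s.iX) (vd (fun a => (p i0).qs (s.q a)) 1) ⊥ = 0 := by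
    refine ind_of h1 le_rfl bot_le le_sup_left ?_
    rw [(p i0).qs_vd]
    exact ((p i0).map_mono s.vd_q_le).trans le_sup_left
  rw [I_zero_iff_h', sup_bot_eq] at h3
  rw [h3]
  exact h2

/-- the potential of a star and the potential of a part of the star agree -/
theorem eq_of_sub (hX : I s.iX s.iP ⊥ = 0) (hq : Rl s.q ⊥) {κ : Type} [Fintype κ] (p' : κ → Pj W T)
    (hs' : IsStar s.fQ p') (e : ι → κ) (he : ∀ i, p' (e i) = p i) (hsp : Span s p) (Φ : SPot s K p) (Φ' : SPot s K p') :
    Φ.f = Φ'.f := by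
  obtain ⟨b, hb⟩ := hsp
  set U := Finset.univ.sup fun i => (p' i).map s.iX with hU
  have hle : (Finset.univ.sup fun i => (p i).map s.iX) ≤ U := by
    apply Finset.sup_le
    intro i _
    rw [← he i]
    exact Finset.le_sup (f := fun i => (p' i).map s.iX) (Finset.mem_univ (e i))
  have hr := rl_point hs' hX hq (e (b 0))
  have hPP : ∀ i, Φ.P i = Φ'.P (e i) := by
    intro i
    apply mv_unique U (fun a => (p' (e (b 0))).qs (s.q a)) _ _ hr (PK_mono hle (Φ.hP i)) (Φ'.hP (e i))
    have hc : ∀ j, (fun a => (p' (e (b 0))).qs (s.q a)) = fun a => (p' (e j)).qs (s.q a) := by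
      intro j
      funext a
      exact hs'.com (e (b 0)) (e j) (Sum.inl a)
    rw [hc i, Φ'.ev (e i), he i]
    exact Φ.ev i
  have hinv : ∀ (i : Fin (d + 1)) (y : Fin (d + 1) → QS W) (c : QS W),
      MvPolynomial.eval (fun a => y a + c * (p (b i)).qs (s.v a)) (Φ.f - Φ'.f) = MvPolynomial.eval y (Φ.f - Φ'.f) := by
    intro i y c
    have h1 := Φ.dv' (b i) y c
    have h2 := Φ'.dv' (e (b i)) y c
    rw [he, ← hPP] at h2
    rw [map_sub, map_sub]
    linear_combination h1 - h2
  have h0 := eval_inv (Φ.f - Φ'.f) (fun i a => (p (b i)).qs (s.v a)) hb hinv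
    (fun a => (p' (e (b 0))).qs (s.q a))
  rw [MvPolynomial.coeff_sub, Φ.f0, Φ'.f0, sub_zero] at h0
  have h1 := mv_eq_zero' U _ (Φ.f - Φ'.f) hr ((PK U).sub_mem (PK_mono hle Φ.hf) Φ'.hf) h0
  exact sub_eq_zero.mp h1

/-- (A): potentials of two stars with the same point agree -/
theorem agree (hP0 : SPOT s K) (hX : I s.iX s.iP ⊥ = 0) (hq : Rl s.q ⊥) (hs : IsStar s.fQ p) (hsp : Span s p)
    (Φ : SPot s K p) {R : Sp} (r1 r2 : Pj R W) (hc : ∀ i a, r1.qs ((p i).qs (s.fQ a)) = r2.qs ((p i).qs (s.fQ a)))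
    (hI : ∀ i x y, I (r1.map x) (r2.map y) (r1.map ((p i).map (vd s.fQ 1))) = 0) :
    MvPolynomial.map r1.qs Φ.f = MvPolynomial.map r2.qs Φ.f := by
  have hd := hs.double r1 r2 hc hI
  have hsd : Span s (Sum.elim (fun i => r1.comp (p i)) (fun i => r2.comp (p i)) : ι ⊕ ι → Pj R T) := by
    obtain ⟨e, he⟩ := hsp.pull r1
    exact ⟨fun i => Sum.inl (e i), he⟩
  obtain ⟨W', w, ⟨Ψ⟩⟩ := hP0 (ι ⊕ ι) inferInstance R _ hd hsd
  have e1 := SPot.eq_of_sub hX hq (fun j => w.comp ((Sum.elim (fun i => r1.comp (p i)) (fun i => r2.comp (p i)) :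
    ι ⊕ ι → Pj R T) j)) (hd.pull w) (fun i => Sum.inl i) (fun i => rfl) ((hsp.pull r1).pull w) ((Φ.pull r1).pull w) Ψ
  have e2 := SPot.eq_of_sub hX hq (fun j => w.comp ((Sum.elim (fun i => r1.comp (p i)) (fun i => r2.comp (p i)) :
    ι ⊕ ι → Pj R T) j)) (hd.pull w) (fun i => Sum.inr i) (fun i => rfl) ((hsp.pull r2).pull w) ((Φ.pull r2).pull w) Ψ
  have e3 : MvPolynomial.map w.qs (MvPolynomial.map r1.qs Φ.f) = MvPolynomial.map w.qs (MvPolynomial.map r2.qs Φ.f) :=
    e1.trans e2.symm
  exact MvPolynomial.map_injective _ w.qs_injective e3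

/-- (A): the coefficients of the potential are free -/
theorem free (hP0 : SPOT s K) (hX : I s.iX s.iP ⊥ = 0) (hq : Rl s.q ⊥) (hs : IsStar s.fQ p) (hsp : Span s p)
    (Φ : SPot s K p) : Φ.f ∈ PK (⊥ : W.L) := by
  classical
  obtain ⟨b, hb⟩ := id hsp
  obtain ⟨R, r1, r2, hc, hI, hv⟩ := exists_copyS (fun a => (p (b 0)).qs (s.fQ a))
  have hcc : ∀ i a, r1.qs ((p i).qs (s.fQ a)) = r2.qs ((p i).qs (s.fQ a)) := by
    intro i a
    rw [hs.com i (b 0) a]
    exact hc a
  have hII : ∀ i x y, I (r1.map x) (r2.map y) (r1.map ((p i).map (vd s.fQ 1))) = 0 := by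
    intro i x y
    rw [hs.com_vd i (b 0), ← (p (b 0)).qs_vd]
    exact hI x y
  have h1 := Φ.agree hP0 hX hq hs hsp r1 r2 hcc hII
  have hd := hs.double r1 r2 hcc hII
  intro m
  have h2 : r1.qs (Φ.f.coeff m) = r2.qs (Φ.f.coeff m) := by
    have := congrArg (MvPolynomial.coeff m) h1
    rwa [MvPolynomial.coeff_map, MvPolynomial.coeff_map] at this
  have h3 : r1.map (dg (Φ.f.coeff m) 1) = r2.map (dg (Φ.f.coeff m) 1) := by
    rw [← r1.qs_dg, ← r2.qs_dg, h2]
  set U := Finset.univ.sup fun i => (p i).map s.iX with hU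
  have hfm : dg (Φ.f.coeff m) 1 ≤ U := Φ.hf m
  have hIU : I (r1.map U) (r2.map U) ⊥ = 0 := by
    have : Nonempty (ι ⊕ ι) := ⟨Sum.inl (b 0)⟩
    have h4 := hd.I_free_two (s := Finset.univ.image Sum.inl) (t := Finset.univ.image Sum.inr) (by
      rw [Finset.disjoint_left]
      intro j hj hj'
      rw [Finset.mem_image] at hj hj'
      obtain ⟨a, _, rfl⟩ := hj
      obtain ⟨c, _, hc⟩ := hj'
      exact Sum.inr_ne_inl hc) (fun _ => s.iX) (fun _ => by rw [FB.vd_fP]; exact hX)
    rw [Finset.sup_image, Finset.sup_image] at h4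
    have e1 : (Finset.univ.sup ((fun i => (Sum.elim (fun i => r1.comp (p i)) (fun i => r2.comp (p i)) i :
        Pj R T).map s.iX) ∘ Sum.inl)) = r1.map U := by
      rw [hU, r1.map_finsup]
      apply Finset.sup_congr rfl
      intro i _
      exact Pj.comp_map _ _ _
    have e2 : (Finset.univ.sup ((fun i => (Sum.elim (fun i => r1.comp (p i)) (fun i => r2.comp (p i)) i :
        Pj R T).map s.iX) ∘ Sum.inr)) = r2.map U := by
      rw [hU, r2.map_finsup]
      apply Finset.sup_congr rfl
      intro i _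
      exact Pj.comp_map _ _ _
    rw [e1, e2] at h4
    exact h4
  have h5 : r1.map (dg (Φ.f.coeff m) 1) ≤ ⊥ := by
    apply le_of_markov (A := r1.map U) (B := r2.map U) _ _ hIU
    · exact (r1.map_mono hfm).trans le_sup_left
    · rw [h3]
      exact (r2.map_mono hfm).trans le_sup_left
  rw [← r1.map_bot] at h5
  exact r1.map_le.mp h5

end SPot

end

end Pool.Agent.Helper99.EC
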